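import Pool.Agent.Lib.ETR.Enc

/-! Reduction of `ETR` to systems of equations `x + y = z`, `x * y = z`, `x = 1`. -/

namespace Pool.Agent.Lib.ETR

open Pool.Agent.Lib.NP N487b59b3 N68a2faeb N793a5b8e Polynomial

/-- `ETR` reduces to `Q` by a `PT` map. -/
def ERHardPT {β : Type} [Enc β] (Q : β → Prop) : Prop :=
  ∃ f : List Bool → β, PT f ∧ ∀ x, ETR x = true ↔ Q (f x)

theorem ERHardPT.reduce {β γ : Type} [Enc β] [Enc γ] {Q : β → Prop} {Q' : γ → Prop}
    (h : ERHardPT Q) {g : β → γ} (hg : PT g) (H : ∀ b, Q b ↔ Q' (g b)) : ERHardPT Q' := by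
  obtain ⟨f, hf, hf'⟩ := h
  exact ⟨fun x => g (f x), hg.comp hf, fun x => (hf' x).trans (H _)⟩

theorem ERHardPT.manyOne {L : DecisionProblem} (h : ERHardPT (fun x => L x = true)) :
    ManyOneReducible ETR L := by
  obtain ⟨f, hf, hf'⟩ := h
  exact ⟨f, hf.isPolyTime_fun, fun x => Bool.eq_iff_iff.2 (hf' x)⟩

/-- A constraint `(0, i, j, k) : x i + x j = x k`, `(1, i, j, k) : x i * x j = x k`, or
`(2, i, _, _) : x i = 1`. -/
abbrev AC (α : Type) := ℕ × α × α × α

def AC.Holds {α : Type} (x : α → ℝ) (c : AC α) : Prop :=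
  if c.1 = 0 then x c.2.1 + x c.2.2.1 = x c.2.2.2
  else if c.1 = 1 then x c.2.1 * x c.2.2.1 = x c.2.2.2 else x c.2.1 = 1

/-- Solvability of a system over the reals. -/
def ASat {α : Type} (cs : List (AC α)) : Prop := ∃ x : α → ℝ, ∀ c ∈ cs, c.Holds x

abbrev Name := List Tok × ℕ

/-- Arity, sort of the arguments, sort of the result. -/
def sig (k : ℕ) : ℕ × ℕ × ℕ :=
  [(0, 0, 0), (0, 0, 0), (1, 0, 0), (2, 0, 0), (2, 0, 0), (2, 0, 1), (2, 0, 1), (1, 1, 1),
    (2, 1, 1), (2, 1, 1), (0, 0, 0)].getD k (0, 0, 2)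

def step (st : List (ℕ × List Tok)) (t : Tok) : List (ℕ × List Tok) :=
  (if (st.take (sig (kind t)).1).map Prod.fst = List.replicate (sig (kind t)).1 (sig (kind t)).2.1
      then (sig (kind t)).2.2 else 2,
    (st.take (sig (kind t)).1).reverse.flatMap Prod.snd ++ [t]) :: st.drop (sig (kind t)).1

def gad (k : ℕ) (a b n : List Tok) : List (AC Name) :=
  [[(0, (n, 0), (n, 0), (n, 0))], [(2, (n, 0), (n, 0), (n, 0))],
    [(0, (n, 0), (b, 0), (n, 1)), (0, (n, 1), (n, 1), (n, 1))],
    [(0, (a, 0), (b, 0), (n, 0))], [(1, (a, 0), (b, 0), (n, 0))],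
    [(0, (n, 1), (b, 0), (a, 0)), (1, (n, 1), (n, 2), (n, 3)), (1, (n, 3), (n, 1), (n, 1)),
      (0, (n, 3), (n, 0), (n, 4)), (2, (n, 4), (n, 4), (n, 4))],
    [(0, (n, 1), (a, 0), (b, 0)), (1, (n, 2), (n, 2), (n, 3)), (1, (n, 0), (n, 0), (n, 0)),
      (1, (n, 1), (n, 3), (n, 4)), (1, (n, 0), (n, 4), (n, 0)), (0, (n, 1), (n, 3), (n, 5)),
      (1, (n, 0), (n, 5), (n, 5))],
    [(0, (n, 0), (b, 0), (n, 1)), (2, (n, 1), (n, 1), (n, 1))],
    [(1, (a, 0), (b, 0), (n, 0))],
    [(1, (a, 0), (b, 0), (n, 1)), (0, (a, 0), (b, 0), (n, 2)), (0, (n, 0), (n, 1), (n, 2))]].getD k []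

def node (st : List (ℕ × List Tok)) (t : Tok) : List (AC Name) :=
  gad (kind t) (st.getD 1 (0, [])).2 (st.getD 0 (0, [])).2 ((step st t).getD 0 (0, [])).2

def nodes : List (ℕ × List Tok) → List Tok → List (AC Name)
  | _, [] => []
  | st, t :: l => node st t ++ nodes (step st t) l

theorem nodes_append (st l l') : nodes st (l ++ l') = nodes st l ++ nodes (l.foldl step st) l' := by
  induction l generalizing st with
  | nil => rfl
  | cons t l ih => simp [nodes, ih]

theorem nodes_eq (st l) : nodes st l =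
    (List.range l.length).flatMap fun i => node ((l.take i).foldl step st) (l.getD i []) := by
  induction l generalizing st with
  | nil => rfl
  | cons t l ih =>
    rw [List.length_cons, List.range_succ_eq_map, List.flatMap_cons, List.flatMap_map, nodes, ih]
    rfl

def Term.cons : Term → List (AC Name)
  | .var _ => []
  | .zero => gad 0 [] [] Term.zero.toks
  | .one => gad 1 [] [] Term.one.toks
  | .neg a => a.cons ++ gad 2 [] a.toks (Term.neg a).toks
  | .add a b => a.cons ++ b.cons ++ gad 3 a.toks b.toks (Term.add a b).toks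
  | .mul a b => a.cons ++ b.cons ++ gad 4 a.toks b.toks (Term.mul a b).toks

def Formula.cons : Formula → List (AC Name)
  | .eq a b => a.cons ++ b.cons ++ gad 5 a.toks b.toks (Formula.eq a b).toks
  | .lt a b => a.cons ++ b.cons ++ gad 6 a.toks b.toks (Formula.lt a b).toks
  | .not φ => φ.cons ++ gad 7 [] φ.toks (Formula.not φ).toks
  | .and φ ψ => φ.cons ++ ψ.cons ++ gad 8 φ.toks ψ.toks (Formula.and φ ψ).toks
  | .or φ ψ => φ.cons ++ ψ.cons ++ gad 9 φ.toks ψ.toks (Formula.or φ ψ).toks

theorem step_term (a : Term) (st) : a.toks.foldl step st = (0, a.toks) :: st := by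
  induction a generalizing st <;> simp_all [Term.toks, step, sig]

theorem step_formula (φ : Formula) (st) : φ.toks.foldl step st = (1, φ.toks) :: st := by
  induction φ generalizing st <;> simp_all [Formula.toks, step, sig, step_term]

theorem nodes_term (a : Term) (st) : nodes st a.toks = a.cons := by
  induction a generalizing st <;>
    simp_all [Term.toks, Term.cons, nodes_append, nodes, node, step_term, step, sig, gad]

theorem nodes_formula (φ : Formula) (st) : nodes st φ.toks = φ.cons := by
  induction φ generalizing st <;>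
    simp_all [Formula.toks, Formula.cons, nodes_append, nodes, node, step_term, step_formula,
      nodes_term, step, sig, gad]

def Good (e : ℕ × List Tok) : Prop :=
  (e.1 = 0 → ∃ a : Term, e.2 = a.toks) ∧ (e.1 = 1 → ∃ φ : Formula, e.2 = φ.toks)

theorem step_good (st : List (ℕ × List Tok)) (t : Tok) (h : ∀ e ∈ st, Good e) :
    ∀ e ∈ step st t, Good e := by
  intro e he
  rcases List.mem_cons.1 he with rfl | he
  swap
  · exact h e (List.mem_of_mem_drop he)
  clear he
  split_ifs with hc
  swap
  · simp [Good]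
  rcases kind_cases t with ⟨s, rfl⟩ | ⟨k, hk, rfl⟩ | hk
  · exact ⟨fun _ => ⟨.var s, by simp [sig, Term.toks]⟩, by simp [sig]⟩
  swap
  · simp [Good, hk, sig]
  have h1 : ∀ s, (st.take 1).map Prod.fst = List.replicate 1 s →
      ∃ b l, st = (s, b) :: l ∧ Good (s, b) := by
    rcases st with _ | ⟨⟨s, b⟩, l⟩
    · simp
    · intro s' e
      obtain rfl : s = s' := by simpa using e
      exact ⟨b, l, rfl, h _ (by simp)⟩
  have h2 : ∀ s, (st.take 2).map Prod.fst = List.replicate 2 s →
      ∃ b a l, st = (s, b) :: (s, a) :: l ∧ Good (s, b) ∧ Good (s, a) := by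
    rcases st with _ | ⟨⟨s, b⟩, _ | ⟨⟨s', a⟩, l⟩⟩
    · simp
    · simp [List.replicate]
    · intro s'' e
      obtain ⟨rfl, rfl⟩ : s = s'' ∧ s' = s'' := by simpa [List.replicate] using e
      exact ⟨b, a, l, rfl, h _ (by simp), h _ (by simp)⟩
  rw [kind_symT k hk] at hc ⊢
  interval_cases k
  · exact ⟨fun _ => ⟨.zero, by simp [sig, Term.toks]⟩, by simp [sig]⟩
  · exact ⟨fun _ => ⟨.one, by simp [sig, Term.toks]⟩, by simp [sig]⟩
  · obtain ⟨b, l, rfl, hb⟩ := h1 0 hc
    obtain ⟨b, rfl⟩ : ∃ a : Term, b = a.toks := hb.1 rfl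
    exact ⟨fun _ => ⟨.neg b, by simp [sig, Term.toks]⟩, by simp [sig]⟩
  all_goals first
    | have h3 := h2 0 hc
      obtain ⟨b, a, l, rfl, hb, ha⟩ := h3
      obtain ⟨b, rfl⟩ : ∃ a : Term, b = a.toks := hb.1 rfl
      obtain ⟨a, rfl⟩ : ∃ b : Term, a = b.toks := ha.1 rfl
    | have h3 := h2 1 hc
      obtain ⟨b, a, l, rfl, hb, ha⟩ := h3
      obtain ⟨b, rfl⟩ : ∃ a : Formula, b = a.toks := hb.2 rfl
      obtain ⟨a, rfl⟩ : ∃ b : Formula, a = b.toks := ha.2 rfl
    | obtain ⟨b, l, rfl, hb⟩ := h1 1 hc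
      obtain ⟨b, rfl⟩ : ∃ a : Formula, b = a.toks := hb.2 rfl
  · exact ⟨fun _ => ⟨.add a b, by simp [sig, Term.toks]⟩, by simp [sig]⟩
  · exact ⟨fun _ => ⟨.mul a b, by simp [sig, Term.toks]⟩, by simp [sig]⟩
  · exact ⟨by simp [sig], fun _ => ⟨.eq a b, by simp [sig, Formula.toks]⟩⟩
  · exact ⟨by simp [sig], fun _ => ⟨.lt a b, by simp [sig, Formula.toks]⟩⟩
  · exact ⟨by simp [sig], fun _ => ⟨.not b, by simp [sig, Formula.toks]⟩⟩
  · exact ⟨by simp [sig], fun _ => ⟨.and a b, by simp [sig, Formula.toks]⟩⟩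
  · exact ⟨by simp [sig], fun _ => ⟨.or a b, by simp [sig, Formula.toks]⟩⟩

theorem foldl_good (l : List Tok) (st : List (ℕ × List Tok)) (h : ∀ e ∈ st, Good e) :
    ∀ e ∈ l.foldl step st, Good e := by
  induction l generalizing st with
  | nil => exact h
  | cons t l ih => exact ih _ (step_good st t h)

theorem Term.sound (x : Name → ℝ) (a : Term) (h : ∀ c ∈ a.cons, c.Holds x) :
    x (a.toks, 0) = a.eval fun s => x ([true :: s], 0) := by
  induction a with
  | var s => rfl
  | zero => simpa [Term.cons, gad, AC.Holds, Term.eval] using h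
  | one => simpa [Term.cons, gad, AC.Holds, Term.eval] using h
  | neg a ih =>
    simp only [Term.cons, List.mem_append, or_imp, forall_and] at h
    have := h.2
    simp [gad, AC.Holds] at this
    rw [Term.eval, ← ih h.1]; linarith [this.1, this.2]
  | add a b iha ihb =>
    simp only [Term.cons, List.mem_append, or_imp, forall_and] at h
    have := h.2
    simp [gad, AC.Holds] at this
    rw [Term.eval, ← iha h.1.1, ← ihb h.1.2, this]
  | mul a b iha ihb =>
    simp only [Term.cons, List.mem_append, or_imp, forall_and] at h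
    have := h.2
    simp [gad, AC.Holds] at this
    rw [Term.eval, ← iha h.1.1, ← ihb h.1.2, this]

open Classical in
theorem Formula.sound (x : Name → ℝ) (φ : Formula) (h : ∀ c ∈ φ.cons, c.Holds x) :
    x (φ.toks, 0) = if φ.Holds fun s => x ([true :: s], 0) then 1 else 0 := by
  induction φ with
  | eq a b =>
    simp only [Formula.cons, List.mem_append, or_imp, forall_and] at h
    have := h.2
    simp only [gad, AC.Holds, List.getD_cons_succ, List.getD_cons_zero, List.forall_mem_cons] at this
    norm_num at this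
    rw [Formula.Holds, ← a.sound x h.1.1, ← b.sound x h.1.2]
    grind
  | lt a b =>
    simp only [Formula.cons, List.mem_append, or_imp, forall_and] at h
    have := h.2
    simp only [gad, AC.Holds, List.getD_cons_succ, List.getD_cons_zero, List.forall_mem_cons] at this
    norm_num at this
    rw [Formula.Holds, ← a.sound x h.1.1, ← b.sound x h.1.2]
    obtain ⟨h1, h2, h3, h4, h5, h6, h7⟩ := this
    have h8 := mul_self_nonneg (x ((Formula.lt a b).toks, 2))
    rcases mul_eq_zero.1 (show x ((Formula.lt a b).toks, 0) * (x ((Formula.lt a b).toks, 0) - 1) = 0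
      by linarith) with h0 | h0
    · rw [if_neg, h0]
      rw [h0] at h7; linarith
    · have h0' : x ((Formula.lt a b).toks, 0) = 1 := by linarith
      rw [if_pos, h0']
      rw [h0'] at h5
      by_contra h9
      nlinarith
  | not φ ih =>
    simp only [Formula.cons, List.mem_append, or_imp, forall_and] at h
    have := h.2
    simp [gad, AC.Holds] at this
    have h1 := ih h.1
    simp only [Formula.Holds]
    grind
  | and φ ψ ih1 ih2 =>
    simp only [Formula.cons, List.mem_append, or_imp, forall_and] at h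
    have := h.2
    simp [gad, AC.Holds] at this
    have h1 := ih1 h.1.1
    have h2 := ih2 h.1.2
    simp only [Formula.Holds]
    grind
  | or φ ψ ih1 ih2 =>
    simp only [Formula.cons, List.mem_append, or_imp, forall_and] at h
    have := h.2
    simp [gad, AC.Holds] at this
    have h1 := ih1 h.1.1
    have h2 := ih2 h.1.2
    simp only [Formula.Holds]
    grind

open Classical in
noncomputable def auxVal (v : List Bool → ℝ) : Term ⊕ Formula → ℕ → ℝ
  | .inl a, r => if r = 0 then a.eval v else 0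
  | .inr φ, 0 => if φ.Holds v then 1 else 0
  | .inr (.eq a b), r + 1 => [a.eval v - b.eval v, (a.eval v - b.eval v)⁻¹,
      (a.eval v - b.eval v) * (a.eval v - b.eval v)⁻¹, 1].getD r 0
  | .inr (.lt a b), r + 1 =>
      let d := b.eval v - a.eval v
      let s := if 0 < d then d⁻¹ else -d
      [d, √s, s, d * s, d + s].getD r 0
  | .inr (.or φ ψ), r + 1 =>
      [(if φ.Holds v then 1 else 0) * (if ψ.Holds v then 1 else 0),
        (if φ.Holds v then 1 else 0) + (if ψ.Holds v then 1 else 0)].getD r 0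
  | .inr _, _ + 1 => 1

theorem Term.complete (v : List Bool → ℝ) (x : Name → ℝ)
    (hx : ∀ (a : Term) r, x (a.toks, r) = auxVal v (.inl a) r) (a : Term) :
    ∀ c ∈ a.cons, c.Holds x := by
  induction a with
  | var s => simp [Term.cons]
  | zero => simp [Term.cons, gad, AC.Holds, hx, auxVal, Term.eval]
  | one => simp [Term.cons, gad, AC.Holds, hx, auxVal, Term.eval]
  | neg a ih =>
    simp only [Term.cons, List.mem_append, or_imp, forall_and]
    exact ⟨ih, by simp [gad, AC.Holds, hx, auxVal, Term.eval]⟩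
  | add a b iha ihb =>
    simp only [Term.cons, List.mem_append, or_imp, forall_and]
    exact ⟨⟨iha, ihb⟩, by simp [gad, AC.Holds, hx, auxVal, Term.eval]⟩
  | mul a b iha ihb =>
    simp only [Term.cons, List.mem_append, or_imp, forall_and]
    exact ⟨⟨iha, ihb⟩, by simp [gad, AC.Holds, hx, auxVal, Term.eval]⟩

theorem Formula.complete (v : List Bool → ℝ) (x : Name → ℝ)
    (hx : ∀ (a : Term) r, x (a.toks, r) = auxVal v (.inl a) r)
    (hx' : ∀ (φ : Formula) r, x (φ.toks, r) = auxVal v (.inr φ) r) (φ : Formula) :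
    ∀ c ∈ φ.cons, c.Holds x := by
  induction φ with
  | eq a b =>
    simp only [Formula.cons, List.mem_append, or_imp, forall_and]
    refine ⟨⟨a.complete v x hx, b.complete v x hx⟩, ?_⟩
    by_cases h : a.eval v - b.eval v = 0
    · simp [gad, AC.Holds, hx, hx', auxVal, Formula.Holds, sub_eq_zero.1 h]
    · simp [gad, AC.Holds, hx, hx', auxVal, Formula.Holds, h, sub_ne_zero.1 h]
  | lt a b =>
    simp only [Formula.cons, List.mem_append, or_imp, forall_and]
    refine ⟨⟨a.complete v x hx, b.complete v x hx⟩, ?_⟩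
    by_cases h : a.eval v < b.eval v
    · have h1 := sub_pos.2 h
      simp [gad, AC.Holds, hx, hx', auxVal, Formula.Holds, h, h1.ne', -Real.sqrt_inv,
        Real.mul_self_sqrt (inv_pos.2 h1).le]
    · have h1 := sub_nonneg.2 (not_lt.1 h)
      simp [gad, AC.Holds, hx, hx', auxVal, Formula.Holds, h, Real.mul_self_sqrt h1]
  | not φ ih =>
    simp only [Formula.cons, List.mem_append, or_imp, forall_and]
    refine ⟨ih, ?_⟩
    by_cases h : φ.Holds v <;> simp [gad, AC.Holds, hx', auxVal, Formula.Holds, h]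
  | and φ ψ ih1 ih2 =>
    simp only [Formula.cons, List.mem_append, or_imp, forall_and]
    refine ⟨⟨ih1, ih2⟩, ?_⟩
    by_cases h : φ.Holds v <;> by_cases h' : ψ.Holds v <;>
      simp [gad, AC.Holds, hx', auxVal, Formula.Holds, h, h']
  | or φ ψ ih1 ih2 =>
    simp only [Formula.cons, List.mem_append, or_imp, forall_and]
    refine ⟨⟨ih1, ih2⟩, ?_⟩
    by_cases h : φ.Holds v <;> by_cases h' : ψ.Holds v <;>
      simp [gad, AC.Holds, hx', auxVal, Formula.Holds, h, h']

theorem aSat_cons (φ : Formula) :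
    ASat ((2, (φ.toks, 0), (φ.toks, 0), (φ.toks, 0)) :: φ.cons) ↔ ∃ v, φ.Holds v := by
  constructor
  · rintro ⟨x, hx⟩
    rw [List.forall_mem_cons] at hx
    have h1 := φ.sound x hx.2
    have h2 : x (φ.toks, 0) = 1 := by simpa [AC.Holds] using hx.1
    refine ⟨fun s => x ([true :: s], 0), ?_⟩
    by_contra h
    rw [if_neg h, h2] at h1
    exact one_ne_zero h1
  · rintro ⟨v, hv⟩
    let x : Name → ℝ := fun n =>
      Function.extend (Sum.elim Term.toks Formula.toks) (auxVal v) 0 n.1 n.2
    have hx : ∀ (a : Term) r, x (a.toks, r) = auxVal v (.inl a) r := fun a r =>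
      congrFun (toks_injective.extend_apply (auxVal v) 0 (.inl a)) r
    have hx' : ∀ (φ : Formula) r, x (φ.toks, r) = auxVal v (.inr φ) r := fun a r =>
      congrFun (toks_injective.extend_apply (auxVal v) 0 (.inr a)) r
    refine ⟨x, List.forall_mem_cons.2 ⟨?_, φ.complete v x hx hx'⟩⟩
    simp [AC.Holds, hx', auxVal, hv]

def tokens (x : List Bool) : List Tok := (x.foldl blkStep (false, [], [])).2.2

def redAS (x : List Bool) : List (AC Name) :=
  if ((tokens x).map delimit).flatten = x ∧ (tokens x).foldl step [] = [(1, tokens x)] then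
    (2, (tokens x, 0), (tokens x, 0), (tokens x, 0)) :: nodes [] (tokens x)
  else [(2, ([], 0), ([], 0), ([], 0)), (0, ([], 0), ([], 0), ([], 0))]

theorem redAS_correct (x : List Bool) : ETR x = true ↔ ASat (redAS x) := by
  by_cases h : ∃ φ : Formula, φ.code = x
  · obtain ⟨φ, rfl⟩ := h
    have h1 : tokens φ.code = φ.toks := by
      rw [tokens, Formula.code_eq, blkStep_blocks]; simp
    rw [etr_code, redAS, h1, if_pos ⟨φ.code_eq.symm, step_formula φ []⟩, nodes_formula, aSat_cons]
  · rw [redAS, if_neg]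
    · simp only [ETR, decide_eq_true_eq]
      constructor
      · rintro ⟨φ, h1, -⟩; exact absurd ⟨φ, h1⟩ h
      · rintro ⟨y, hy⟩
        simp [AC.Holds] at hy
        linarith [hy.1, hy.2]
    · rintro ⟨h1, h2⟩
      obtain ⟨φ, h3⟩ := (foldl_good (tokens x) [] (by simp) (1, tokens x) (by simp [h2])).2 rfl
      exact h ⟨φ, by rw [Formula.code_eq, ← h3]; exact h1⟩

theorem pt_kind : PT kind := by
  unfold kind symT
  refine PT.ite (by fun_prop) (by fun_prop) (PT.ite ?_ (by fun_prop) (by fun_prop))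
  exact PT.decide_and (by fun_prop) (by fun_prop)

theorem pt_step : PT fun p : List (ℕ × List Tok) × Tok => step p.1 p.2 := by
  have := pt_kind
  unfold step sig
  fun_prop

theorem sz_step (st : List (ℕ × List Tok)) (t : Tok) : sz (step st t) ≤ sz st + (4 * sz t + 20) := by
  have h1 : ∀ l : List (ℕ × List Tok), 2 * sz (l.reverse.flatMap Prod.snd) ≤ sz l := by
    intro l
    induction l with
    | nil => simp
    | cons a l ih =>
      rcases a with ⟨a, b⟩
      simp at ih ⊢; omega
  have h2 := sz_append (st.take (sig (kind t)).1) (st.drop (sig (kind t)).1)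
  rw [List.take_append_drop] at h2
  have h3 := h1 (st.take (sig (kind t)).1)
  have h4 : (sig (kind t)).2.2 ≤ 2 := by
    generalize kind t = k
    unfold sig
    rcases lt_or_ge k 11 with h | h
    · interval_cases k <;> simp
    · rw [List.getD_eq_default _ _ (by simpa using h)]
  unfold step
  split_ifs <;> simp at h3 ⊢ <;> omega

theorem pt_run : PT fun l : List Tok => l.foldl step [] :=
  PT.foldl_add (f := fun _ s b => step s b)
    (pt_step.comp (g := fun p : List Tok × List (ℕ × List Tok) × Tok => (p.2.1, p.2.2))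
      (by fun_prop)) (by fun_prop) (by fun_prop) (4 * X + 20) fun a s b => by
      have := sz_step s b
      simp; omega

theorem pt_node : PT fun p : List (ℕ × List Tok) × Tok => node p.1 p.2 := by
  have h1 := pt_kind
  have h2 := pt_step
  have h3 : PT fun p : ℕ × List Tok × List Tok × List Tok => gad p.1 p.2.1 p.2.2.1 p.2.2.2 := by
    unfold gad; fun_prop
  exact h3.comp (g := fun p : List (ℕ × List Tok) × Tok => (kind p.2, (p.1.getD 1 (0, [])).2,
    (p.1.getD 0 (0, [])).2, ((step p.1 p.2).getD 0 (0, [])).2))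
    (PT.mk (by fun_prop) (PT.mk (by fun_prop) (PT.mk (by fun_prop)
      (PT.snd (PT.getD h2 (by fun_prop) (by fun_prop))))))

theorem pt_redAS : PT redAS := by
  have h1 : PT tokens := pt_blk.snd.snd
  have h2 : PT fun l : List Tok => nodes [] l := by
    simp only [nodes_eq]
    refine PT.flatMap (pt_node.comp (g := fun p : List Tok × ℕ =>
      ((p.1.take p.2).foldl step [], p.1.getD p.2 [])) (PT.mk ?_ (by fun_prop))) (by fun_prop)
    exact pt_run.comp (g := fun p : List Tok × ℕ => p.1.take p.2) (by fun_prop)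
  unfold redAS
  refine PT.ite (PT.decide_and (by fun_prop) (PT.decide_eq (pt_run.comp h1) (by fun_prop)))
    (PT.cons (by fun_prop) (h2.comp h1)) (by fun_prop)

theorem as_hard_name : ERHardPT (ASat (α := Name)) := ⟨redAS, pt_redAS, redAS_correct⟩

@[fun_prop] theorem pt_idxOf {α β : Type} [Enc α] [Enc β] [BEq β] [LawfulBEq β] {f : α → β}
    {l : α → List β} (hf : PT f) (hl : PT l) : PT fun a => (l a).idxOf (f a) := by
  have key : ∀ (b : β) (l : List β),
      (List.range l.length).countP (fun i => !(l.take (i + 1)).contains b) = l.idxOf b := by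
    intro b l
    induction l with
    | nil => simp
    | cons c l ih =>
      rw [List.length_cons, List.range_succ_eq_map, List.countP_cons, List.countP_map]
      by_cases h : c = b
      · subst h; simp
      · rw [List.idxOf_cons_ne _ h, ← ih]
        simp [Function.comp_def, Ne.symm h]
  refine PT.congr ?_ fun a => key (f a) (l a)
  fun_prop

/-- Renaming of the variables by their first position. -/
def AC.rename {α : Type} [DecidableEq α] (cs : List (AC α)) : List (AC ℕ) :=
  cs.map fun c => (c.1, (cs.flatMap fun c => [c.2.1, c.2.2.1, c.2.2.2]).idxOf c.2.1,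
    (cs.flatMap fun c => [c.2.1, c.2.2.1, c.2.2.2]).idxOf c.2.2.1,
    (cs.flatMap fun c => [c.2.1, c.2.2.1, c.2.2.2]).idxOf c.2.2.2)

theorem aSat_rename {α : Type} [DecidableEq α] (cs : List (AC α)) :
    ASat cs ↔ ASat (AC.rename cs) := by
  set l := cs.flatMap fun c => [c.2.1, c.2.2.1, c.2.2.2] with hl
  constructor
  · rintro ⟨x, hx⟩
    have key : ∀ a ∈ l, (l.map x).getD (l.idxOf a) 0 = x a := by
      intro a ha
      have := List.idxOf_lt_length_of_mem ha
      simp [this]
    refine ⟨fun i => (l.map x).getD i 0, fun c hc => ?_⟩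
    obtain ⟨c, hc', rfl⟩ := List.mem_map.1 hc
    have h := hx c hc'
    unfold AC.Holds at h ⊢
    simp only [← hl]
    rwa [key _ (List.mem_flatMap.2 ⟨c, hc', by simp⟩), key _ (List.mem_flatMap.2 ⟨c, hc', by simp⟩),
      key _ (List.mem_flatMap.2 ⟨c, hc', by simp⟩)]
  · rintro ⟨x, hx⟩
    exact ⟨fun a => x (l.idxOf a), fun c hc => hx _ (List.mem_map.2 ⟨c, hc, rfl⟩)⟩

/-- Systems of equations `x + y = z`, `x * y = z`, `x = 1` over natural-number variables are
`∃ℝ`-hard. -/
theorem as_hard : ERHardPT (ASat (α := ℕ)) :=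
  as_hard_name.reduce (g := AC.rename) (by unfold AC.rename; fun_prop) aSat_rename

end Pool.Agent.Lib.ETR
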