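import Mathlib

/-! Integer polynomials with bounded degree and bounded sum of absolute values of coefficients;
`N + 1` such polynomials in `N` variables satisfy an integer relation of controlled size
(Perron's count and Siegel's lemma). -/

namespace Pool.Agent.Lib.ETR

open MvPolynomial Finset

/-- `Bd d a p`: `p` has degree at most `d` and the absolute values of its coefficients sum to
at most `a`. -/
inductive Bd {σ : Type} : ℕ → ℕ → MvPolynomial σ ℤ → Prop
  | mono (m : σ →₀ ℕ) (c : ℤ) : Bd m.degree c.natAbs (monomial m c)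
  | add {d a b : ℕ} {p q : MvPolynomial σ ℤ} : Bd d a p → Bd d b q → Bd d (a + b) (p + q)
  | le {d a d' a' : ℕ} {p : MvPolynomial σ ℤ} : Bd d a p → d ≤ d' → a ≤ a' → Bd d' a' p

namespace Bd

variable {σ τ : Type}

theorem zero (d a : ℕ) : Bd d a (0 : MvPolynomial σ ℤ) := by
  have := mono (0 : σ →₀ ℕ) 0
  rw [monomial_zero] at this
  exact this.le (by simp) (by simp)

theorem one : Bd 0 1 (1 : MvPolynomial σ ℤ) := by simpa using mono (0 : σ →₀ ℕ) 1

theorem negOne : Bd 0 1 (-1 : MvPolynomial σ ℤ) := by simpa using mono (0 : σ →₀ ℕ) (-1)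

theorem X (i : σ) : Bd 1 1 (X i : MvPolynomial σ ℤ) := by
  simpa [MvPolynomial.X] using mono (Finsupp.single i 1) 1

theorem mul {d a d' a' : ℕ} {p q : MvPolynomial σ ℤ} (hp : Bd d a p) (hq : Bd d' a' q) :
    Bd (d + d') (a * a') (p * q) := by
  induction hp with
  | mono m c =>
    induction hq with
    | mono m' c' =>
      rw [monomial_mul, ← map_add, ← Int.natAbs_mul]
      exact mono _ _
    | add _ _ ih1 ih2 => rw [mul_add, mul_add]; exact ih1.add ih2
    | le _ h1 h2 ih => exact ih.le (by omega) (Nat.mul_le_mul_left _ h2)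
  | add _ _ ih1 ih2 => rw [add_mul, add_mul]; exact ih1.add ih2
  | le _ h1 h2 ih => exact ih.le (by omega) (Nat.mul_le_mul_right _ h2)

theorem neg {d a : ℕ} {p : MvPolynomial σ ℤ} (hp : Bd d a p) : Bd d a (-p) := by
  simpa using negOne.mul hp

theorem sub {d a b : ℕ} {p q : MvPolynomial σ ℤ} (hp : Bd d a p) (hq : Bd d b q) :
    Bd d (a + b) (p - q) := by
  rw [sub_eq_add_neg]; exact hp.add hq.neg

theorem pow {d a : ℕ} {p : MvPolynomial σ ℤ} (hp : Bd d a p) (k : ℕ) :
    Bd (k * d) (a ^ k) (p ^ k) := by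
  induction k with
  | zero => simpa using one
  | succ k ih => rw [pow_succ, pow_succ, Nat.succ_mul]; exact ih.mul hp

theorem prod {ι : Type} (s : Finset ι) {d a : ι → ℕ} {p : ι → MvPolynomial σ ℤ}
    (h : ∀ i ∈ s, Bd (d i) (a i) (p i)) :
    Bd (∑ i ∈ s, d i) (∏ i ∈ s, a i) (∏ i ∈ s, p i) := by
  classical
  induction s using Finset.induction_on with
  | empty => simpa using one
  | insert i s hi ih =>
    rw [sum_insert hi, prod_insert hi, prod_insert hi]
    exact (h i (mem_insert_self _ _)).mul (ih fun j hj => h j (mem_insert_of_mem hj))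

theorem sum {ι : Type} (s : Finset ι) {d a : ℕ} {p : ι → MvPolynomial σ ℤ}
    (h : ∀ i ∈ s, Bd d a (p i)) : Bd d (s.card * a) (∑ i ∈ s, p i) := by
  classical
  induction s using Finset.induction_on with
  | empty => simpa using zero _ _
  | insert i s hi ih =>
    rw [sum_insert hi, card_insert_of_notMem hi, Nat.succ_mul, add_comm (_ * _)]
    exact (h i (mem_insert_self _ _)).add (ih fun j hj => h j (mem_insert_of_mem hj))

theorem listSum {ι : Type} (l : List ι) {d a : ℕ} {p : ι → MvPolynomial σ ℤ}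
    (h : ∀ i ∈ l, Bd d a (p i)) : Bd d (l.length * a) (l.map p).sum := by
  induction l with
  | nil => simpa using zero _ _
  | cons i l ih =>
    rw [List.map_cons, List.sum_cons, List.length_cons, Nat.succ_mul, add_comm (_ * _)]
    exact (h i (by simp)).add (ih fun j hj => h j (by simp [hj]))

theorem pderiv {d a : ℕ} {p : MvPolynomial σ ℤ} (hp : Bd d a p) (i : σ) :
    Bd d (d * a) (MvPolynomial.pderiv i p) := by
  induction hp with
  | mono m c =>
    rw [pderiv_monomial]
    refine (mono _ _).le (Finsupp.degree_mono tsub_le_self) ?_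
    rw [Int.natAbs_mul, Int.natAbs_natCast, mul_comm]
    exact Nat.mul_le_mul_right _ (Finsupp.le_degree _ _)
  | add _ _ ih1 ih2 => rw [map_add, mul_add]; exact ih1.add ih2
  | le _ h1 h2 ih => exact ih.le h1 (Nat.mul_le_mul h1 h2)

theorem rename {d a : ℕ} {p : MvPolynomial σ ℤ} (hp : Bd d a p) (f : σ → τ) :
    Bd d a (MvPolynomial.rename f p) := by
  induction hp with
  | mono m c => rw [rename_monomial, ← Finsupp.degree_mapDomain f m]; exact mono _ _
  | add _ _ ih1 ih2 => rw [map_add]; exact ih1.add ih2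
  | le _ h1 h2 ih => exact ih.le h1 h2

theorem coeff_le {d a : ℕ} {p : MvPolynomial σ ℤ} (hp : Bd d a p) (m : σ →₀ ℕ) :
    (coeff m p).natAbs ≤ a := by
  classical
  induction hp with
  | mono m' c => rw [coeff_monomial]; split_ifs <;> simp
  | add _ _ ih1 ih2 => rw [coeff_add]; exact (Int.natAbs_add_le _ _).trans (by omega)
  | le _ _ h2 ih => omega

theorem coeff_eq_zero {d a : ℕ} {p : MvPolynomial σ ℤ} (hp : Bd d a p) (m : σ →₀ ℕ)
    (hm : d < m.degree) : coeff m p = 0 := by
  classical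
  induction hp with
  | mono m' c =>
    rw [coeff_monomial, if_neg]
    rintro rfl; omega
  | add _ _ ih1 ih2 => rw [coeff_add, ih1 hm, ih2 hm, add_zero]
  | le _ h1 _ ih => exact ih (by omega)

end Bd

/-- The degree bound of the relation. -/
def Dg (S : ℕ) : ℕ := 2 ^ ((S + 2) * S + 1)

/-- The height bound of the relation. -/
def Ht (S : ℕ) : ℕ := Dg S ^ S * 2 ^ (S * S * Dg S)

theorem Dg_pos (S : ℕ) : 0 < Dg S := by unfold Dg; positivity

theorem two_le_Dg (S : ℕ) : 2 ≤ Dg S := by
  unfold Dg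
  rw [pow_succ]
  have : 0 < 2 ^ ((S + 2) * S) := by positivity
  omega

attribute [local instance] Matrix.seminormedAddCommGroup in
theorem exists_annih {τ υ : Type} [Fintype τ] [Fintype υ] [DecidableEq τ] (S : ℕ)
    (hc : Fintype.card τ = Fintype.card υ + 1) (hS : Fintype.card τ ≤ S)
    (g : τ → MvPolynomial υ ℤ) (hg : ∀ j, Bd 4 (2 ^ S) (g j)) :
    ∃ t : (τ → Fin (Dg S)) → ℤ, t ≠ 0 ∧ (∀ α, (t α).natAbs ≤ Ht S) ∧
      ∑ α, C (t α) * ∏ j, g j ^ (α j : ℕ) = 0 := by
  classical
  set D := Dg S with hD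
  set E := 4 * S * D with hE
  have hD0 := Dg_pos S
  have hS0 : 0 < S := by omega
  have hE0 : 0 < E := by positivity
  have hgood : ∀ α : τ → Fin D, Bd (E - 1) (2 ^ (S * S * D)) (∏ j, g j ^ (α j : ℕ)) := by
    intro α
    have hs : ∑ j, (α j : ℕ) ≤ S * (D - 1) := by
      calc ∑ j, (α j : ℕ) ≤ ∑ _j : τ, (D - 1) := sum_le_sum fun j _ => by have := (α j).2; omega
        _ = Fintype.card τ * (D - 1) := by simp
        _ ≤ _ := Nat.mul_le_mul_right _ hS
    refine (Bd.prod univ fun j _ => (hg j).pow (α j)).le ?_ ?_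
    · rw [← sum_mul]
      have : E = 4 * (S * (D - 1)) + 4 * S := by
        obtain ⟨D', hD'⟩ : ∃ D', D = D' + 1 := ⟨D - 1, by omega⟩
        rw [hE, hD', Nat.add_sub_cancel]; ring
      omega
    · rw [prod_pow_eq_pow_sum, ← pow_mul]
      refine Nat.pow_le_pow_right (by norm_num) ?_
      rw [mul_assoc]
      exact Nat.mul_le_mul_left _ (hs.trans (Nat.mul_le_mul_left _ (by omega)))
  let A : Matrix (υ → Fin E) (τ → Fin D) ℤ := fun β α =>
    coeff (Finsupp.equivFunOnFinite.symm fun i => (β i : ℕ)) (∏ j, g j ^ (α j : ℕ))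
  have hcard : 2 * Fintype.card (υ → Fin E) ≤ Fintype.card (τ → Fin D) := by
    simp only [Fintype.card_fun, Fintype.card_fin, hc]
    rw [pow_succ, hE, mul_pow, ← mul_assoc, mul_comm (D ^ _)]
    refine Nat.mul_le_mul_right _ ?_
    have h1 : 4 * S ≤ 2 ^ (S + 2) := by
      have := (Nat.lt_two_pow_self (n := S)).le
      rw [pow_add]; omega
    calc 2 * (4 * S) ^ Fintype.card υ ≤ 2 * (2 ^ (S + 2)) ^ S :=
          Nat.mul_le_mul_left _ ((Nat.pow_le_pow_left h1 _).trans
            (Nat.pow_le_pow_right (by positivity) (by omega)))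
      _ = D := by rw [hD, Dg, ← pow_mul, pow_succ, mul_comm]
  have hm : 0 < Fintype.card (υ → Fin E) := by
    simp only [Fintype.card_fun, Fintype.card_fin]; positivity
  obtain ⟨t, ht0, ht1, ht2⟩ := Int.Matrix.exists_ne_zero_int_vec_norm_le A (by omega) hm
  refine ⟨t, ht0, fun α => ?_, ?_⟩
  · have hA : ‖A‖ ≤ (2 ^ (S * S * D) : ℕ) := by
      rw [Matrix.norm_le_iff (by positivity)]
      intro β α
      rw [Int.norm_eq_abs, ← Int.cast_abs, ← Int.natCast_natAbs, Int.cast_natCast]
      exact_mod_cast (hgood α).coeff_le _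
    have h1 : max 1 ‖A‖ ≤ (2 ^ (S * S * D) : ℕ) :=
      max_le (by exact_mod_cast Nat.one_le_two_pow) hA
    have hn : (Fintype.card (τ → Fin D) : ℝ) ≤ (D ^ S : ℕ) := by
      simp only [Fintype.card_fun, Fintype.card_fin]
      exact_mod_cast Nat.pow_le_pow_right hD0 hS
    have hn1 : (1 : ℝ) ≤ Fintype.card (τ → Fin D) := by exact_mod_cast (by omega)
    have hb : (1 : ℝ) ≤ Fintype.card (τ → Fin D) * max 1 ‖A‖ :=
      one_le_mul_of_one_le_of_one_le hn1 (le_max_left _ _)
    have he : (Fintype.card (υ → Fin E) : ℝ) /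
        (Fintype.card (τ → Fin D) - Fintype.card (υ → Fin E)) ≤ 1 := by
      have h2 : (2 : ℝ) * Fintype.card (υ → Fin E) ≤ Fintype.card (τ → Fin D) := by
        exact_mod_cast hcard
      have h3 : (0 : ℝ) < Fintype.card (υ → Fin E) := by exact_mod_cast hm
      rw [div_le_one (by linarith)]
      linarith
    have h4 : ‖t α‖ ≤ (Ht S : ℕ) := by
      refine (norm_le_pi_norm t α).trans (ht2.trans ?_)
      refine (Real.rpow_le_rpow_of_exponent_le hb he).trans ?_
      rw [Real.rpow_one, Ht, Nat.cast_mul]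
      exact mul_le_mul hn h1 (by positivity) (by positivity)
    rw [Int.norm_eq_abs, ← Int.cast_abs, ← Int.natCast_natAbs, Int.cast_natCast] at h4
    exact_mod_cast h4
  · ext m
    rw [coeff_sum, coeff_zero]
    simp only [coeff_C_mul]
    by_cases hm : ∀ i, m i < E
    · have := congrFun ht1 fun i => ⟨m i, hm i⟩
      simp only [Matrix.mulVec, dotProduct, A, Pi.zero_apply] at this
      rw [← this]
      refine sum_congr rfl fun α _ => ?_
      rw [mul_comm]
      congr 2
      ext i; simp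
    · push Not at hm
      obtain ⟨i, hi⟩ := hm
      refine sum_eq_zero fun α _ => ?_
      have := Finsupp.le_degree i m
      rw [(hgood α).coeff_eq_zero m (by omega), mul_zero]

end Pool.Agent.Lib.ETR
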