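import Mathlib

/-! Replacing exact incidences of a constructible point-line configuration by strict sign
conditions on clusters of four copies (Mnev's perturbation trick). -/

namespace Pool.Agent.Lib.ETR

open Filter Topology

abbrev V3 := ℝ × ℝ × ℝ

def dot (u v : V3) : ℝ := u.1 * v.1 + u.2.1 * v.2.1 + u.2.2 * v.2.2

def crs (u v : V3) : V3 :=
  (u.2.1 * v.2.2 - u.2.2 * v.2.1, u.2.2 * v.1 - u.1 * v.2.2, u.1 * v.2.1 - u.2.1 * v.1)

def sg (b : Bool) : ℝ := bif b then 1 else -1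

@[simp] theorem sg_true : sg true = 1 := rfl
@[simp] theorem sg_false : sg false = -1 := rfl

theorem dot_comm (u v : V3) : dot u v = dot v u := by unfold dot; ring

theorem dot_smul (a : ℝ) (u v : V3) : dot u (a • v) = a * dot u v := by simp [dot]; ring

theorem dot_comb (a b : ℝ) (u v w : V3) : dot (a • u + b • v) w = a * dot u w + b * dot v w := by
  simp [dot]; ring

def bb : List (Bool × Bool) := [(true, true), (true, false), (false, true), (false, false)]

theorem mem_bb (s : Bool × Bool) : s ∈ bb := by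
  rcases s with ⟨_ | _, _ | _⟩ <;> simp [bb]

variable {ι : Type}

def clus (obs : List ι) (par : ι → ι × ι) (cons : List (Bool × ι × ι)) :
    List (Bool × (ι × Bool × Bool) × (ι × Bool × Bool)) :=
  (obs.flatMap fun o => bb.flatMap fun s => bb.flatMap fun s' =>
    [(s.1, (o, s), ((par o).1, s')), (s.2, (o, s), ((par o).2, s'))]) ++
  cons.flatMap fun c => bb.flatMap fun s => bb.map fun s' => (c.1, (c.2.1, s), (c.2.2, s'))

theorem forall_clus {obs : List ι} {par : ι → ι × ι} {cons : List (Bool × ι × ι)}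
    {Q : Bool × (ι × Bool × Bool) × (ι × Bool × Bool) → Prop} :
    (∀ c ∈ clus obs par cons, Q c) ↔
      (∀ o ∈ obs, ∀ s s', Q (s.1, (o, s), ((par o).1, s')) ∧ Q (s.2, (o, s), ((par o).2, s'))) ∧
      ∀ c ∈ cons, ∀ s s', Q (c.1, (c.2.1, s), (c.2.2, s')) := by
  simp only [clus, List.mem_append, List.mem_flatMap, List.mem_map, List.mem_cons,
    List.not_mem_nil, or_false, mem_bb, true_and]
  constructor
  · intro h
    exact ⟨fun o ho s s' => ⟨h _ (.inl ⟨o, ho, s, s', .inl rfl⟩), h _ (.inl ⟨o, ho, s, s', .inr rfl⟩)⟩,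
      fun c hc s s' => h _ (.inr ⟨c, hc, s, s', rfl⟩)⟩
  · rintro ⟨h1, h2⟩ _ (⟨o, ho, s, s', rfl | rfl⟩ | ⟨c, hc, s, s', rfl⟩)
    · exact (h1 o ho s s').1
    · exact (h1 o ho s s').2
    · exact h2 c hc s s'

def Exact (obs : List ι) (par : ι → ι × ι) (cons : List (Bool × ι × ι)) (u : ι → V3) : Prop :=
  (∀ o ∈ obs, dot (u o) (u (par o).1) = 0 ∧ dot (u o) (u (par o).2) = 0) ∧
    ∀ c ∈ cons, 0 < sg c.1 * dot (u c.2.1) (u c.2.2)

def Hull (U : Bool × Bool → V3) (w : V3) : Prop :=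
  ∀ φ : V3, (∀ s, 0 < dot (U s) φ) → 0 < dot w φ

theorem Hull.sgn {U : Bool × Bool → V3} {w : V3} (h : Hull U w) (σ : ℝ) (φ : V3)
    (hφ : ∀ s, 0 < σ * dot φ (U s)) : 0 < σ * dot w φ := by
  rw [← dot_smul]
  exact h _ fun s => by rw [dot_smul, dot_comm]; exact hφ s

theorem Hull.mix {U : Bool × Bool → V3} {w1 w2 : V3} (h1 : Hull U w1) (h2 : Hull U w2) (β : V3)
    (b1 : 0 < dot w1 β) (b2 : dot w2 β < 0) : ∃ w, Hull U w ∧ dot w β = 0 ∧
      ∃ a b : ℝ, 0 < a ∧ 0 < b ∧ ∀ φ, dot w φ = a * dot w1 φ + b * dot w2 φ := by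
  refine ⟨(-dot w2 β) • w1 + (dot w1 β) • w2, fun φ hφ => ?_, by rw [dot_comb]; ring,
    _, _, neg_pos.2 b2, b1, fun φ => dot_comb _ _ _ _ _⟩
  rw [dot_comb]
  exact add_pos (mul_pos (neg_pos.2 b2) (h1 φ hφ)) (mul_pos b1 (h2 φ hφ))

theorem exists_mix (U : Bool × Bool → V3) (α β : V3) (hα : ∀ s, 0 < sg s.1 * dot (U s) α)
    (hβ : ∀ s, 0 < sg s.2 * dot (U s) β) : ∃ w, Hull U w ∧ dot w α = 0 ∧ dot w β = 0 := by
  have hU : ∀ s, Hull U (U s) := fun s φ h => h s
  obtain ⟨w1, h1, h2, a, b, ha, hb, h3⟩ := (hU (true, true)).mix (hU (true, false)) β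
    (by simpa using hβ (true, true)) (by simpa using hβ (true, false))
  obtain ⟨w2, h4, h5, c, d, hc, hd, h6⟩ := (hU (false, true)).mix (hU (false, false)) β
    (by simpa using hβ (false, true)) (by simpa using hβ (false, false))
  obtain ⟨w, h7, h8, e, f, -, -, h9⟩ := h1.mix h4 α
    (by
      rw [h3]
      exact add_pos (mul_pos ha (by simpa using hα (true, true)))
        (mul_pos hb (by simpa using hα (true, false))))
    (by
      rw [h6]
      exact add_neg (mul_neg_of_pos_of_neg hc (by simpa using hα (false, true)))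
        (mul_neg_of_pos_of_neg hd (by simpa using hα (false, false))))
  exact ⟨w, h7, h8, by rw [h9, h2, h5]; ring⟩

variable {obs : List ι} {par : ι → ι × ι} {cons : List (Bool × ι × ι)}

theorem lev_bound (obs : List ι) (lev : ι → ℕ) : ∃ N, ∀ o ∈ obs, lev o < N :=
  ⟨(obs.map lev).sum + 1, fun _ ho => Nat.lt_succ_of_le
    (List.single_le_sum (fun _ _ => Nat.zero_le _) _ (List.mem_map_of_mem ho))⟩

theorem exact_of_clus (lev : ι → ℕ)
    (hl : ∀ o ∈ obs, lev (par o).1 < lev o ∧ lev (par o).2 < lev o) (U : ι × Bool × Bool → V3)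
    (hU : ∀ c ∈ clus obs par cons, 0 < sg c.1 * dot (U c.2.1) (U c.2.2)) :
    ∃ u, Exact obs par cons u := by
  classical
  obtain ⟨h1, h2⟩ := forall_clus.1 hU
  have key : ∀ n, ∃ u : ι → V3, (∀ o, Hull (fun s => U (o, s)) (u o)) ∧
      ∀ o ∈ obs, lev o < n → dot (u o) (u (par o).1) = 0 ∧ dot (u o) (u (par o).2) = 0 := by
    intro n
    induction n with
    | zero => exact ⟨fun o => U (o, true, true), fun o φ h => h _, fun _ _ h => absurd h (by omega)⟩
    | succ n ih =>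
      obtain ⟨u, hu, hu'⟩ := ih
      have : ∀ o, ∃ w, Hull (fun s => U (o, s)) w ∧ (lev o ≠ n → w = u o) ∧
          (o ∈ obs → lev o = n → dot w (u (par o).1) = 0 ∧ dot w (u (par o).2) = 0) := by
        intro o
        by_cases h : o ∈ obs ∧ lev o = n
        · obtain ⟨w, hw, hw'⟩ := exists_mix (fun s => U (o, s)) (u (par o).1) (u (par o).2)
            (fun s => by rw [dot_comm]; exact (hu _).sgn _ _ fun s' => (h1 o h.1 s s').1)
            (fun s => by rw [dot_comm]; exact (hu _).sgn _ _ fun s' => (h1 o h.1 s s').2)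
          exact ⟨w, hw, fun h' => absurd h.2 h', fun _ _ => hw'⟩
        · exact ⟨u o, hu o, fun _ => rfl, fun h3 h4 => absurd ⟨h3, h4⟩ h⟩
      choose u' h3 h4 h5 using this
      refine ⟨u', h3, fun o ho hn => ?_⟩
      obtain ⟨a1, a2⟩ := hl o ho
      rw [h4 (par o).1 (by omega), h4 (par o).2 (by omega)]
      by_cases h : lev o = n
      · exact h5 o ho h
      · rw [h4 o h]; exact hu' o ho (by omega)
  obtain ⟨N, hN⟩ := lev_bound obs lev
  obtain ⟨u, hu, hu'⟩ := key N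
  refine ⟨u, fun o ho => hu' o ho (hN o ho), fun c hc => ?_⟩
  refine (hu _).sgn _ _ fun s => (hu _).sgn _ _ fun s' => h2 c hc s s'

theorem ev_pos (σ : ℝ) (x y d d' : V3) {a b : ℕ} (ha : a ≠ 0) (hb : b ≠ 0)
    (h : 0 < σ * dot x y) :
    ∀ᶠ ε in 𝓝[>] (0 : ℝ), 0 < σ * dot (x + ε ^ a • d) (y + ε ^ b • d') := by
  have hc : Continuous fun ε : ℝ => σ * dot (x + ε ^ a • d) (y + ε ^ b • d') := by
    unfold dot; fun_prop
  exact (continuousAt_const.eventually_lt hc.continuousAt (by simpa [ha, hb] using h)).filter_mono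
    nhdsWithin_le_nhds

theorem ev_pos' (σ : ℝ) (x y d d' : V3) {a b : ℕ} (hab : a < b) (h0 : dot x y = 0)
    (h : 0 < σ * dot d y) :
    ∀ᶠ ε in 𝓝[>] (0 : ℝ), 0 < σ * dot (x + ε ^ a • d) (y + ε ^ b • d') := by
  obtain ⟨k, rfl⟩ := Nat.exists_eq_add_of_lt hab
  have hc : Continuous fun ε : ℝ => σ * (dot d y + ε ^ (k + 1) * dot x d' +
      ε ^ (a + k + 1) * dot d d') := by fun_prop
  filter_upwards [self_mem_nhdsWithin, (continuousAt_const.eventually_lt hc.continuousAt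
    (by simpa using h)).filter_mono nhdsWithin_le_nhds] with ε h1 h2
  have e : σ * dot (x + ε ^ a • d) (y + ε ^ (a + k + 1) • d') = σ * dot x y +
      ε ^ a * (σ * (dot d y + ε ^ (k + 1) * dot x d' + ε ^ (a + k + 1) * dot d d')) := by
    simp [dot]; ring
  rw [e, h0, mul_zero, zero_add]
  exact mul_pos (pow_pos h1 _) h2

theorem ev_list {α : Type} {l : Filter ℝ} (L : List α) {p : α → ℝ → Prop}
    (h : ∀ a ∈ L, ∀ᶠ x in l, p a x) : ∀ᶠ x in l, ∀ a ∈ L, p a x :=
  (eventually_all_finite (List.finite_toSet L)).2 h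

theorem clus_of_exact (lev : ι → ℕ)
    (hl : ∀ o ∈ obs, lev (par o).1 < lev o ∧ lev (par o).2 < lev o) (u : ι → V3)
    (hu : Exact obs par cons u) (hnd : ∀ o ∈ obs, crs (u (par o).1) (u (par o).2) ≠ 0)
    (h : V3) (pts : List ι) (hp : ∀ o ∈ pts, 0 < dot h (u o)) :
    ∃ U : ι × Bool × Bool → V3,
      (∀ c ∈ clus obs par cons, 0 < sg c.1 * dot (U c.2.1) (U c.2.2)) ∧
      ∀ o ∈ pts, ∀ s, 0 < dot h (U (o, s)) := by
  obtain ⟨N, hN⟩ := lev_bound obs lev
  let D : ι × Bool × Bool → V3 := fun x =>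
    sg x.2.1 • crs (u (par x.1).2) (crs (u (par x.1).1) (u (par x.1).2)) +
    sg x.2.2 • crs (crs (u (par x.1).1) (u (par x.1).2)) (u (par x.1).1)
  have hsq : ∀ b, sg b * sg b = 1 := fun b => by cases b <;> simp
  have hpos : ∀ n : V3, n ≠ 0 → 0 < dot n n := by
    rintro ⟨a, b, c⟩ hn
    by_contra hle
    simp only [dot, not_lt] at hle
    apply hn
    rw [show a = 0 by nlinarith, show b = 0 by nlinarith, show c = 0 by nlinarith]
    rfl
  have hD : ∀ o ∈ obs, ∀ s, 0 < sg s.1 * dot (D (o, s)) (u (par o).1) ∧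
      0 < sg s.2 * dot (D (o, s)) (u (par o).2) := by
    intro o ho s
    have h1 := hpos _ (hnd o ho)
    have e1 : ∀ a b : V3, dot (crs b (crs a b)) a = dot (crs a b) (crs a b) ∧
        dot (crs (crs a b) a) a = 0 ∧ dot (crs b (crs a b)) b = 0 ∧
        dot (crs (crs a b) a) b = dot (crs a b) (crs a b) := fun a b => by
      refine ⟨?_, ?_, ?_, ?_⟩ <;> simp only [dot, crs] <;> ring
    obtain ⟨a1, a2, a3, a4⟩ := e1 (u (par o).1) (u (par o).2)
    simp only [D, dot_comb, a1, a2, a3, a4, mul_zero, add_zero, zero_add, ← mul_assoc, hsq, one_mul]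
    exact ⟨h1, h1⟩
  let U : ℝ → ι × Bool × Bool → V3 := fun ε x => u x.1 + ε ^ (N - lev x.1 + 1) • D x
  have e1 : ∀ᶠ ε in 𝓝[>] (0 : ℝ), ∀ c ∈ clus obs par cons,
      0 < sg c.1 * dot (U ε c.2.1) (U ε c.2.2) := by
    refine ev_list _ (forall_clus.2 ⟨fun o ho s s' => ?_, fun c hc s s' => ?_⟩)
    · have := hl o ho
      have := hN o ho
      exact ⟨ev_pos' _ _ _ _ _ (by simp only; omega) (hu.1 o ho).1 (hD o ho s).1,
        ev_pos' _ _ _ _ _ (by simp only; omega) (hu.1 o ho).2 (hD o ho s).2⟩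
    · exact ev_pos _ _ _ _ _ (by omega) (by omega) (hu.2 c hc)
  have e2 : ∀ᶠ ε in 𝓝[>] (0 : ℝ), ∀ o ∈ pts, ∀ s ∈ bb, 0 < dot h (U ε (o, s)) := by
    refine ev_list _ fun o ho => ev_list _ fun s _ => ?_
    simpa using ev_pos 1 h (u o) 0 (D (o, s)) one_ne_zero (b := N - lev o + 1) (by omega)
      (by simpa using hp o ho)
  obtain ⟨ε, h1, h2⟩ := (e1.and e2).exists
  exact ⟨U ε, h1, fun o ho s => h2 o ho s (mem_bb s)⟩

end Pool.Agent.Lib.ETR
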