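import Mathlib
import Pool.Prelude.Def_F_458e953d

namespace Pool.Agent.Lib.ETR

open N68a2faeb N793a5b8e

/-! ### The existential theory of the reals -/

/-- Terms over `0, 1, -, +, *`; variables are named by binary strings. -/
inductive Term
  | var (name : List Bool)
  | zero
  | one
  | neg (a : Term)
  | add (a b : Term)
  | mul (a b : Term)

/-- Quantifier-free formulas over `=, <` and `¬, ∧, ∨`. -/
inductive Formula
  | eq (a b : Term)
  | lt (a b : Term)
  | not (φ : Formula)
  | and (φ ψ : Formula)
  | or (φ ψ : Formula)

def Term.eval (v : List Bool → ℝ) : Term → ℝ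
  | .var s => v s
  | .zero => 0
  | .one => 1
  | .neg a => -a.eval v
  | .add a b => a.eval v + b.eval v
  | .mul a b => a.eval v * b.eval v

def Formula.Holds (v : List Bool → ℝ) : Formula → Prop
  | .eq a b => a.eval v = b.eval v
  | .lt a b => a.eval v < b.eval v
  | .not φ => ¬ φ.Holds v
  | .and φ ψ => φ.Holds v ∧ ψ.Holds v
  | .or φ ψ => φ.Holds v ∨ ψ.Holds v

/-- The self-delimiting code of the `k`-th non-variable symbol. -/
def sym (k : ℕ) : List Bool := N487b59b3.delimit (List.replicate (k + 1) false)

/-- Terms as binary strings, in postfix notation. -/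
def Term.code : Term → List Bool
  | .var s => N487b59b3.delimit (true :: s)
  | .zero => sym 0
  | .one => sym 1
  | .neg a => a.code ++ sym 2
  | .add a b => a.code ++ b.code ++ sym 3
  | .mul a b => a.code ++ b.code ++ sym 4

/-- Formulas as binary strings, in postfix notation. -/
def Formula.code : Formula → List Bool
  | .eq a b => a.code ++ b.code ++ sym 5
  | .lt a b => a.code ++ b.code ++ sym 6
  | .not φ => φ.code ++ sym 7
  | .and φ ψ => φ.code ++ ψ.code ++ sym 8
  | .or φ ψ => φ.code ++ ψ.code ++ sym 9

open Classical in
/-- `ETR`: codes of quantifier-free formulas whose existential closure is true in `ℝ`. -/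
noncomputable def ETR : DecisionProblem :=
  fun x => decide (∃ φ : Formula, φ.code = x ∧ ∃ v : List Bool → ℝ, φ.Holds v)

/-- The class `∃ℝ`: problems with a polynomial-time many-one reduction to `ETR`. -/
def ExistsR : DecisionComplexityClass := {L | ManyOneReducible L ETR}

end Pool.Agent.Lib.ETR
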