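import Pool.Agent.Lib.ETR.Defs
import Pool.Agent.Lib.NP.Dec

/-! Token lists of terms and formulas, unique readability, and polynomial-time construction of
formulas. -/

namespace Pool.Agent.Lib.ETR

open Pool.Agent.Lib.NP N487b59b3 N68a2faeb N793a5b8e

abbrev Tok := List Bool

def symT (k : ℕ) : Tok := List.replicate (k + 1) false

def Term.toks : Term → List Tok
  | .var s => [true :: s]
  | .zero => [symT 0]
  | .one => [symT 1]
  | .neg a => a.toks ++ [symT 2]
  | .add a b => a.toks ++ b.toks ++ [symT 3]
  | .mul a b => a.toks ++ b.toks ++ [symT 4]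

def Formula.toks : Formula → List Tok
  | .eq a b => a.toks ++ b.toks ++ [symT 5]
  | .lt a b => a.toks ++ b.toks ++ [symT 6]
  | .not φ => φ.toks ++ [symT 7]
  | .and φ ψ => φ.toks ++ ψ.toks ++ [symT 8]
  | .or φ ψ => φ.toks ++ ψ.toks ++ [symT 9]

theorem Term.code_eq (a : Term) : a.code = (a.toks.map delimit).flatten := by
  induction a <;> simp_all [Term.code, Term.toks, sym, symT]

theorem Formula.code_eq (φ : Formula) : φ.code = (φ.toks.map delimit).flatten := by
  induction φ <;> simp_all [Formula.code, Formula.toks, sym, symT, Term.code_eq]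

/-- `0, …, 9` for the symbols, `10` for variables, `11` for anything else. -/
def kind (t : Tok) : ℕ :=
  if t.headD false = true then 10
  else if t = symT (t.length - 1) ∧ t.length ≤ 10 then t.length - 1 else 11

@[simp] theorem kind_var (s : List Bool) : kind (true :: s) = 10 := by simp [kind]

theorem kind_symT (k : ℕ) (hk : k < 10) : kind (symT k) = k := by
  simp [kind, symT, List.replicate_succ]; omega

@[simp] theorem kind_0 : kind (symT 0) = 0 := kind_symT _ (by norm_num)
@[simp] theorem kind_1 : kind (symT 1) = 1 := kind_symT _ (by norm_num)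
@[simp] theorem kind_2 : kind (symT 2) = 2 := kind_symT _ (by norm_num)
@[simp] theorem kind_3 : kind (symT 3) = 3 := kind_symT _ (by norm_num)
@[simp] theorem kind_4 : kind (symT 4) = 4 := kind_symT _ (by norm_num)
@[simp] theorem kind_5 : kind (symT 5) = 5 := kind_symT _ (by norm_num)
@[simp] theorem kind_6 : kind (symT 6) = 6 := kind_symT _ (by norm_num)
@[simp] theorem kind_7 : kind (symT 7) = 7 := kind_symT _ (by norm_num)
@[simp] theorem kind_8 : kind (symT 8) = 8 := kind_symT _ (by norm_num)
@[simp] theorem kind_9 : kind (symT 9) = 9 := kind_symT _ (by norm_num)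

theorem kind_cases (t : Tok) :
    (∃ s, t = true :: s) ∨ (∃ k < 10, t = symT k) ∨ kind t = 11 := by
  unfold kind
  split_ifs with h1 h2
  · left; cases t with
    | nil => simp at h1
    | cons b s => exact ⟨s, by simp_all⟩
  · right; left
    refine ⟨_, ?_, h2.1⟩
    have := congrArg List.length h2.1
    simp [symT] at this; omega
  · simp

def gl (e : Term ⊕ Formula) : Term := e.elim id fun _ => .zero
def gr (e : Term ⊕ Formula) : Formula := e.elim (fun _ => .eq .zero .zero) id

/-- One step of a parser that inverts `toks`. -/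
def pstep (st : List (Term ⊕ Formula)) (t : Tok) : List (Term ⊕ Formula) :=
  let a := st.getD 1 (.inl .zero)
  let b := st.getD 0 (.inl .zero)
  [.inl .zero :: st, .inl .one :: st, .inl (.neg (gl b)) :: st.drop 1,
    .inl (.add (gl a) (gl b)) :: st.drop 2, .inl (.mul (gl a) (gl b)) :: st.drop 2,
    .inr (.eq (gl a) (gl b)) :: st.drop 2, .inr (.lt (gl a) (gl b)) :: st.drop 2,
    .inr (.not (gr b)) :: st.drop 1, .inr (.and (gr a) (gr b)) :: st.drop 2,
    .inr (.or (gr a) (gr b)) :: st.drop 2].getD (kind t) (.inl (.var t.tail) :: st)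

theorem pstep_term (a : Term) (st) : a.toks.foldl pstep st = .inl a :: st := by
  induction a generalizing st <;> simp_all [Term.toks, pstep, gl]

theorem pstep_formula (φ : Formula) (st) : φ.toks.foldl pstep st = .inr φ :: st := by
  induction φ generalizing st <;> simp_all [Formula.toks, pstep, gl, gr, pstep_term]

theorem toks_injective :
    Function.Injective (Sum.elim Term.toks Formula.toks : Term ⊕ Formula → List Tok) := by
  have : ∀ e : Term ⊕ Formula,
      (Sum.elim Term.toks Formula.toks e).foldl pstep [] = [e] := by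
    rintro (a | φ)
    · exact pstep_term a []
    · exact pstep_formula φ []
  intro e e' h
  have h1 := this e
  rw [h, this e'] at h1
  simpa using h1.symm

theorem Term.code_injective : Function.Injective Term.code := fun a b h => by
  rw [Term.code_eq, Term.code_eq] at h
  exact Sum.inl_injective (toks_injective (a₁ := .inl a) (a₂ := .inl b) (blocks_inj h))

theorem Formula.code_injective : Function.Injective Formula.code := fun a b h => by
  rw [Formula.code_eq, Formula.code_eq] at h
  exact Sum.inr_injective (toks_injective (a₁ := .inr a) (a₂ := .inr b) (blocks_inj h))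

theorem etr_code (φ : Formula) : ETR φ.code = true ↔ ∃ v, φ.Holds v := by
  simp only [ETR, decide_eq_true_eq]
  exact ⟨fun ⟨_, h1, h2⟩ => Formula.code_injective h1 ▸ h2, fun h => ⟨φ, rfl, h⟩⟩

instance : Enc Term := ⟨fun a => enc a.code, Enc.inj.comp Term.code_injective⟩
instance : Enc Formula := ⟨fun a => enc a.code, Enc.inj.comp Formula.code_injective⟩

section

variable {α : Type} [Enc α]

theorem pt_term {f : α → Term} : PT f ↔ PT fun a => (f a).code := Iff.rfl
theorem pt_formula {f : α → Formula} : PT f ↔ PT fun a => (f a).code := Iff.rfl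

@[fun_prop] theorem pt_var {f : α → List Bool} (hf : PT f) : PT fun a => Term.var (f a) := by
  rw [pt_term]; simp only [Term.code]; fun_prop

@[fun_prop] theorem pt_neg {f : α → Term} (hf : PT f) : PT fun a => Term.neg (f a) :=
  PT.append (pt_term.1 hf) (PT.const _)

@[fun_prop] theorem pt_add {f g : α → Term} (hf : PT f) (hg : PT g) :
    PT fun a => Term.add (f a) (g a) :=
  PT.append (PT.append (pt_term.1 hf) (pt_term.1 hg)) (PT.const _)

@[fun_prop] theorem pt_mul {f g : α → Term} (hf : PT f) (hg : PT g) :
    PT fun a => Term.mul (f a) (g a) :=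
  PT.append (PT.append (pt_term.1 hf) (pt_term.1 hg)) (PT.const _)

@[fun_prop] theorem pt_eq {f g : α → Term} (hf : PT f) (hg : PT g) :
    PT fun a => Formula.eq (f a) (g a) :=
  PT.append (PT.append (pt_term.1 hf) (pt_term.1 hg)) (PT.const _)

@[fun_prop] theorem pt_lt {f g : α → Term} (hf : PT f) (hg : PT g) :
    PT fun a => Formula.lt (f a) (g a) :=
  PT.append (PT.append (pt_term.1 hf) (pt_term.1 hg)) (PT.const _)

@[fun_prop] theorem pt_not {f : α → Formula} (hf : PT f) : PT fun a => Formula.not (f a) :=
  PT.append (pt_formula.1 hf) (PT.const _)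

@[fun_prop] theorem pt_and {f g : α → Formula} (hf : PT f) (hg : PT g) :
    PT fun a => Formula.and (f a) (g a) :=
  PT.append (PT.append (pt_formula.1 hf) (pt_formula.1 hg)) (PT.const _)

@[fun_prop] theorem pt_or {f g : α → Formula} (hf : PT f) (hg : PT g) :
    PT fun a => Formula.or (f a) (g a) :=
  PT.append (PT.append (pt_formula.1 hf) (pt_formula.1 hg)) (PT.const _)

end

/-- The true formula `0 = 0`. -/
def tt : Formula := .eq .zero .zero

/-- The false formula `0 = 1`. -/
def ff : Formula := .eq .zero .one

@[simp] theorem holds_tt (v) : tt.Holds v := rfl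
@[simp] theorem holds_ff (v) : ¬ ff.Holds v := by simp [ff, Formula.Holds, Term.eval]

/-- Conjunction of a list. -/
def bigAnd (l : List Formula) : Formula := l.foldl .and tt

/-- Disjunction of a list. -/
def bigOr (l : List Formula) : Formula := l.foldl .or ff

@[simp] theorem holds_bigAnd (v) (l : List Formula) :
    (bigAnd l).Holds v ↔ ∀ φ ∈ l, φ.Holds v := by
  have : ∀ ψ : Formula, (l.foldl .and ψ).Holds v ↔ ψ.Holds v ∧ ∀ φ ∈ l, φ.Holds v := by
    induction l with
    | nil => simp
    | cons a l ih => intro ψ; simp [ih, Formula.Holds, and_assoc]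
  simp [bigAnd, this]

@[simp] theorem holds_bigOr (v) (l : List Formula) :
    (bigOr l).Holds v ↔ ∃ φ ∈ l, φ.Holds v := by
  have : ∀ ψ : Formula, (l.foldl .or ψ).Holds v ↔ ψ.Holds v ∨ ∃ φ ∈ l, φ.Holds v := by
    induction l with
    | nil => simp
    | cons a l ih => intro ψ; simp [ih, Formula.Holds, or_assoc]
  simp [bigOr, this]

@[fun_prop] theorem pt_bigAnd {α : Type} [Enc α] {f : α → List Formula} (hf : PT f) :
    PT fun a => bigAnd (f a) := by
  have : ∀ (l : List Formula) (ψ : Formula),
      (l.foldl .and ψ).code = ψ.code ++ l.flatMap fun φ => φ.code ++ sym 8 := by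
    intro l
    induction l with
    | nil => simp
    | cons a l ih => intro ψ; simp [ih, Formula.code]
  rw [pt_formula]
  simp only [bigAnd, this]
  exact PT.append (PT.const _)
    (PT.flatMap (PT.append (pt_formula.1 (PT.snd PT.id')) (PT.const _)) hf)

@[fun_prop] theorem pt_bigOr {α : Type} [Enc α] {f : α → List Formula} (hf : PT f) :
    PT fun a => bigOr (f a) := by
  have : ∀ (l : List Formula) (ψ : Formula),
      (l.foldl .or ψ).code = ψ.code ++ l.flatMap fun φ => φ.code ++ sym 9 := by
    intro l
    induction l with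
    | nil => simp
    | cons a l ih => intro ψ; simp [ih, Formula.code]
  rw [pt_formula]
  simp only [bigOr, this]
  exact PT.append (PT.const _)
    (PT.flatMap (PT.append (pt_formula.1 (PT.snd PT.id')) (PT.const _)) hf)

/-- Membership in `∃ℝ` from a polynomial-time construction of formulas. -/
theorem mem_ExistsR_of {L : DecisionProblem} (Φ : List Bool → Formula) (hΦ : PT Φ)
    (h : ∀ x, L x = true ↔ ∃ v, (Φ x).Holds v) : L ∈ ExistsR :=
  ⟨fun x => (Φ x).code, (pt_formula.1 hΦ).isPolyTime_fun, fun x =>
    Bool.eq_iff_iff.2 ((h x).trans (etr_code _).symm)⟩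

/-- The variable named by an encodable object. -/
def nv {ι : Type} [Enc ι] (i : ι) : Term := .var (enc i)

@[fun_prop] theorem pt_nv {α ι : Type} [Enc α] [Enc ι] {f : α → ι} (hf : PT f) :
    PT fun a => nv (f a) := pt_var hf.enc'

theorem exists_valuation {ι : Type} [Enc ι] (x : ι → ℝ) :
    ∃ v : List Bool → ℝ, ∀ i, (nv i).eval v = x i :=
  ⟨Function.extend enc x 0, fun i => Enc.inj.extend_apply _ _ i⟩

end Pool.Agent.Lib.ETR
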