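import Pool.Agent.Lib.ETR.Annih

/-! Doubly exponential bounds for zeros and for positive minima of integer polynomials of
degree at most four. -/

namespace Pool.Agent.Lib.ETR

open MvPolynomial Finset Filter Topology

theorem hasDerivAt_aeval {σ : Type} [Fintype σ] (γ : ℝ → σ → ℝ) (γ' : σ → ℝ) (t : ℝ)
    (h : ∀ i, HasDerivAt (fun s => γ s i) (γ' i) t) (p : MvPolynomial σ ℤ) :
    HasDerivAt (fun s => aeval (γ s) p) (∑ i, aeval (γ t) (pderiv i p) * γ' i) t := by
  classical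
  induction p using MvPolynomial.induction_on with
  | C a => simpa using hasDerivAt_const t (a : ℝ)
  | add p q ih1 ih2 =>
    simp only [map_add, add_mul, sum_add_distrib]
    exact ih1.add ih2
  | mul_X p j ih =>
    simp only [map_mul, aeval_X]
    refine (ih.fun_mul (h j)).congr_deriv (Eq.symm ?_)
    simp only [pderiv_mul, map_add, map_mul, aeval_X, add_mul, sum_add_distrib, sum_mul]
    congr 1
    · exact sum_congr rfl fun i _ => by ring
    · rw [sum_eq_single j]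
      · simp
      · intro i _ hi
        rw [pderiv_X_of_ne hi.symm]; simp
      · simp

theorem continuous_aeval {σ : Type} (p : MvPolynomial σ ℤ) :
    Continuous fun w : σ → ℝ => aeval w p := by
  induction p using MvPolynomial.induction_on with
  | C a => simpa using continuous_const
  | add p q ih1 ih2 => simp only [map_add]; exact ih1.add ih2
  | mul_X p j ih => simp only [map_mul, aeval_X]; exact ih.mul (continuous_apply j)

theorem lagrange {σ : Type} [Fintype σ] (F : MvPolynomial σ ℤ) (l w : σ → ℝ) (ρ : ℝ) (hρ : 0 < ρ)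
    (hw : ∑ i, w i ^ 2 = ρ) (hmin : ∀ v : σ → ℝ, ∑ i, v i ^ 2 = ρ →
      aeval w F - ∑ i, l i * w i ≤ aeval v F - ∑ i, l i * v i) :
    ∃ μ : ℝ, ∀ i, aeval w (pderiv i F) - μ * w i = l i := by
  set c : σ → ℝ := fun i => aeval w (pderiv i F) - l i with hc
  set μ := (∑ i, c i * w i) / ρ with hμ
  set u : σ → ℝ := fun i => c i - μ * w i with hu
  have huw : ∑ i, u i * w i = 0 := by
    have : ∑ i, u i * w i = ∑ i, c i * w i - μ * ∑ i, w i ^ 2 := by
      rw [mul_sum, ← sum_sub_distrib]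
      exact sum_congr rfl fun i _ => by simp only [hu]; ring
    rw [this, hw, hμ, div_mul_cancel₀ _ hρ.ne', sub_self]
  suffices h : ∑ i, u i ^ 2 = 0 by
    refine ⟨μ, fun i => ?_⟩
    have := (sum_eq_zero_iff_of_nonneg fun i _ => sq_nonneg (u i)).1 h i (mem_univ i)
    have h2 : u i = 0 := by simpa using this
    simp only [hu, hc] at h2
    linarith
  by_contra hne
  have hU : 0 < ∑ i, u i ^ 2 := lt_of_le_of_ne (sum_nonneg fun i _ => sq_nonneg _) (Ne.symm hne)
  set a := Real.sqrt (ρ / ∑ i, u i ^ 2) with ha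
  have ha2 : a ^ 2 * ∑ i, u i ^ 2 = ρ := by
    rw [ha, Real.sq_sqrt (by positivity), div_mul_cancel₀ _ hne]
  have ha0 : 0 < a := Real.sqrt_pos.2 (by positivity)
  let γ : ℝ → σ → ℝ := fun t i => Real.cos t * w i + Real.sin t * (a * u i)
  have hγ0 : γ 0 = w := by funext i; simp [γ]
  have hγ : ∀ t, ∑ i, γ t i ^ 2 = ρ := by
    intro t
    have : ∑ i, γ t i ^ 2 = Real.cos t ^ 2 * ∑ i, w i ^ 2 + Real.sin t ^ 2 * (a ^ 2 * ∑ i, u i ^ 2) +
        2 * Real.cos t * Real.sin t * a * ∑ i, u i * w i := by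
      simp only [mul_sum, ← sum_add_distrib]
      exact sum_congr rfl fun i _ => by simp only [γ]; ring
    rw [this, hw, ha2, huw]
    have := Real.cos_sq_add_sin_sq t
    linear_combination ρ * this
  have hd : ∀ i, HasDerivAt (fun t => γ t i) (a * u i) 0 := by
    intro i
    exact (((Real.hasDerivAt_cos 0).mul_const (w i)).fun_add
      ((Real.hasDerivAt_sin 0).mul_const (a * u i))).congr_deriv (by simp)
  have h1 := hasDerivAt_aeval γ _ 0 hd F
  have h2 : HasDerivAt (fun t => ∑ i, l i * γ t i) (∑ i, l i * (a * u i)) 0 :=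
    HasDerivAt.fun_sum fun i _ => (hd i).const_mul (l i)
  have h3 : IsLocalMin (fun t => aeval (γ t) F - ∑ i, l i * γ t i) 0 := by
    refine Eventually.of_forall fun t => ?_
    simp only [hγ0]
    exact hmin _ (hγ t)
  have h4 := h3.hasDerivAt_eq_zero (h1.sub h2)
  rw [hγ0] at h4
  have h5 : a * ∑ i, u i ^ 2 = ∑ i, aeval w (pderiv i F) * (a * u i) - ∑ i, l i * (a * u i) -
      a * μ * ∑ i, u i * w i := by
    simp only [mul_sum, ← sum_sub_distrib]
    exact sum_congr rfl fun i _ => by simp only [hu, hc]; ring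
  rw [h4, huw] at h5
  have := mul_pos ha0 hU
  linarith

theorem isCompact_sphere' {σ : Type} [Fintype σ] (ρ : ℝ) :
    IsCompact {w : σ → ℝ | ∑ i, w i ^ 2 = ρ} := by
  refine (isCompact_closedBall (0 : σ → ℝ) (|ρ| + 1)).of_isClosed_subset
    (isClosed_eq (by fun_prop) continuous_const) fun w hw => ?_
  rw [mem_closedBall_zero_iff, pi_norm_le_iff_of_nonneg (by positivity)]
  intro i
  have h1 : w i ^ 2 ≤ ρ := hw ▸ single_le_sum (f := fun i => w i ^ 2) (fun i _ => sq_nonneg _)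
    (mem_univ i)
  rw [Real.norm_eq_abs]
  have := le_abs_self ρ
  nlinarith [sq_abs (w i), abs_nonneg (w i), sq_nonneg (|w i| - 1), abs_nonneg ρ]

theorem sphere_rel (N S : ℕ) (hN : N + 2 ≤ S) (F : MvPolynomial (Fin N) ℤ) (a : ℕ)
    (hF : Bd 4 a F) (ha : 4 * a + 1 ≤ 2 ^ S) :
    ∃ c : Fin (Dg S) → Fin (Dg S) → ℤ, c ≠ 0 ∧ (∀ i j, (c i j).natAbs ≤ Ht S) ∧
      ∀ (ρ : ℝ) (w : Fin N → ℝ), 0 < ρ → ∑ i, w i ^ 2 = ρ →
        (∀ v : Fin N → ℝ, ∑ i, v i ^ 2 = ρ → aeval w F ≤ aeval v F) →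
        ∑ i, ∑ j, (c i j : ℝ) * aeval w F ^ (i : ℕ) * ρ ^ (j : ℕ) = 0 := by
  classical
  let g : Option (Option (Fin N)) → MvPolynomial (Option (Fin N)) ℤ := fun j =>
    j.elim (rename some F) fun j => j.elim (∑ i, X (some i) * X (some i)) fun i =>
      rename some (pderiv i F) - X none * X (some i)
  have hg : ∀ j, Bd 4 (2 ^ S) (g j) := by
    rintro (_ | _ | i)
    · exact (hF.rename some).le le_rfl (by omega)
    · refine (Bd.sum (univ : Finset (Fin N)) fun i _ => (Bd.X (some i)).mul (Bd.X (some i))).le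
        (by norm_num : 1 + 1 ≤ 4) ?_
      have := (Nat.lt_two_pow_self (n := S)).le
      simp; omega
    · exact (((hF.pderiv i).rename some).sub
        (((Bd.X _).mul (Bd.X _)).le (by norm_num : 1 + 1 ≤ 4) le_rfl)).le le_rfl (by omega)
  obtain ⟨t, ht0, ht1, ht2⟩ := exists_annih S (by simp) (by simp; omega) g hg
  let D := Dg S
  let e : (Option (Option (Fin N)) → Fin D) → ℕ := fun α =>
    ∑ i : Fin N, (α (some (some i)) : ℕ) * D ^ (i : ℕ)
  obtain ⟨α0, h0, hmin0⟩ : ∃ α0, t α0 ≠ 0 ∧ ∀ α, t α ≠ 0 → e α0 ≤ e α := by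
    obtain ⟨α1, h1⟩ := Function.ne_iff.1 ht0
    obtain ⟨α0, h2, h3⟩ := exists_min_image (univ.filter fun α => t α ≠ 0) e ⟨α1, by simpa using h1⟩
    exact ⟨α0, by simpa using h2, fun α h => h3 α (by simpa using h)⟩
  let ι : Fin D × Fin D → Option (Option (Fin N)) → Fin D := fun p j =>
    j.elim p.1 fun j => j.elim p.2 fun i => α0 (some (some i))
  have hι : Function.Injective ι := fun p q h =>
    Prod.ext (congrFun h none) (congrFun h (some none))
  have hrange : ∀ α, e α = e α0 → α ∈ Set.range ι := by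
    intro α h
    have : (fun i => α (some (some i))) = fun i => α0 (some (some i)) :=
      finFunctionFinEquiv.injective (Fin.ext h)
    refine ⟨(α none, α (some none)), funext ?_⟩
    rintro (_ | _ | i)
    · rfl
    · rfl
    · exact (congrFun this i).symm
  refine ⟨fun i j => t (ι (i, j)), ?_, fun i j => ht1 _, fun ρ w hρ hw hmin => ?_⟩
  · intro h
    obtain ⟨p, hp⟩ := hrange α0 rfl
    exact h0 (hp ▸ congrFun (congrFun h p.1) p.2)
  let Φ : ℝ × ℝ → ℝ := fun p => ∑ α, (t α : ℝ) * p.1 ^ (α none : ℕ) * ρ ^ (α (some none) : ℕ) *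
    p.2 ^ (e α - e α0)
  have hΦ : Continuous Φ := by fun_prop
  have hex : ∀ s : ℝ, ∃ v : Fin N → ℝ, ∑ i, v i ^ 2 = ρ ∧ ∀ v' : Fin N → ℝ, ∑ i, v' i ^ 2 = ρ →
      aeval v F - ∑ i : Fin N, s ^ D ^ (i : ℕ) * v i ≤ aeval v' F - ∑ i : Fin N, s ^ D ^ (i : ℕ) * v' i := by
    intro s
    obtain ⟨v, hv, hv'⟩ := (isCompact_sphere' ρ).exists_isMinOn ⟨w, hw⟩
      (f := fun v : Fin N → ℝ => aeval v F - ∑ i : Fin N, s ^ D ^ (i : ℕ) * v i)
      ((continuous_aeval F).sub (by fun_prop)).continuousOn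
    exact ⟨v, hv, fun v' h => hv' h⟩
  choose v hv hv' using hex
  have hz : ∀ s, 0 < s → Φ (aeval (v s) F, s) = 0 := by
    intro s hs
    obtain ⟨μ, hμ⟩ := lagrange F _ (v s) ρ hρ (hv s) (hv' s)
    have h1 := congrArg (aeval (fun j : Option (Fin N) => j.elim μ (v s))) ht2
    simp only [map_sum, map_mul, map_prod, map_pow, map_zero, aeval_C, Fintype.prod_option, g,
      Option.elim_none, Option.elim_some, aeval_rename, map_sub, aeval_X] at h1
    have h2 : ((fun j : Option (Fin N) => j.elim μ (v s)) ∘ some) = v s := rfl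
    simp only [h2, hμ, ← sq, hv s, ← pow_mul, prod_pow_eq_pow_sum, eq_intCast] at h1
    have h3 : s ^ e α0 * Φ (aeval (v s) F, s) = 0 := by
      rw [← h1, mul_sum]
      refine sum_congr rfl fun α _ => ?_
      by_cases hα : t α = 0
      · simp [hα]
      · have h4 : ∑ i : Fin N, D ^ (i : ℕ) * (α (some (some i)) : ℕ) = e α0 + (e α - e α0) := by
          rw [Nat.add_sub_cancel' (hmin0 α hα)]
          exact sum_congr rfl fun i _ => mul_comm _ _
        rw [h4, pow_add]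
        ring
    exact (mul_eq_zero.1 h3).resolve_left (by positivity)
  have hbd : ∀ u : Fin N → ℝ, ∑ i, u i ^ 2 = ρ → ∀ i, |u i| ≤ ρ + 1 := by
    intro u hu i
    have h1 : u i ^ 2 ≤ ρ := hu ▸ single_le_sum (f := fun i => u i ^ 2) (fun i _ => sq_nonneg _)
      (mem_univ i)
    nlinarith [sq_abs (u i), abs_nonneg (u i), sq_nonneg (|u i| - 1)]
  have hlim : Tendsto (fun s => aeval (v s) F) (𝓝[>] 0) (𝓝 (aeval w F)) := by
    have h1 : Tendsto (fun s : ℝ => aeval w F + N * (s * (2 * (ρ + 1)))) (𝓝[>] 0)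
        (𝓝 (aeval w F)) := by
      have : Continuous fun s : ℝ => aeval w F + N * (s * (2 * (ρ + 1))) := by fun_prop
      simpa using (this.tendsto 0).mono_left nhdsWithin_le_nhds
    refine tendsto_of_tendsto_of_tendsto_of_le_of_le' tendsto_const_nhds h1
      (Eventually.of_forall fun s => hmin _ (hv s)) ?_
    filter_upwards [Ioo_mem_nhdsGT (zero_lt_one' ℝ)] with s hs
    have h2 := hv' s w hw
    have h3 : ∑ i : Fin N, s ^ D ^ (i : ℕ) * v s i - ∑ i : Fin N, s ^ D ^ (i : ℕ) * w i ≤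
        ∑ _i : Fin N, s * (2 * (ρ + 1)) := by
      rw [← sum_sub_distrib]
      refine sum_le_sum fun i _ => ?_
      have h4 : s ^ D ^ (i : ℕ) ≤ s :=
        pow_le_of_le_one hs.1.le hs.2.le (pow_pos (Dg_pos S) _).ne'
      have h5 := abs_le.1 (hbd _ (hv s) i)
      have h6 := abs_le.1 (hbd _ hw i)
      have h7 : 0 < s ^ D ^ (i : ℕ) := pow_pos hs.1 _
      nlinarith
    simp only [sum_const, card_univ, Fintype.card_fin, nsmul_eq_mul] at h3
    linarith
  have hfin : Φ (aeval w F, 0) = 0 := by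
    have h1 : Tendsto (fun s => Φ (aeval (v s) F, s)) (𝓝[>] 0) (𝓝 (Φ (aeval w F, 0))) :=
      (hΦ.tendsto _).comp (hlim.prodMk_nhds (tendsto_id.mono_left nhdsWithin_le_nhds))
    refine tendsto_nhds_unique h1 (tendsto_const_nhds.congr' ?_)
    filter_upwards [self_mem_nhdsWithin] with s hs
    exact (hz s hs).symm
  rw [← hfin, ← Fintype.sum_prod_type']
  refine Fintype.sum_of_injective ι hι _ _ (fun α hα => ?_) fun p => ?_
  · by_cases h : t α = 0
    · simp [h]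
    · have h1 := hmin0 α h
      have h2 : e α ≠ e α0 := fun h => hα (hrange α h)
      rw [zero_pow (by omega), mul_zero]
  · have : e (ι p) = e α0 := rfl
    rw [this, Nat.sub_self, pow_zero, mul_one]
    rfl

theorem abs_poly_le (H ρ : ℝ) (hH : 0 ≤ H) (hρ : H + 1 ≤ ρ) : ∀ (D : ℕ) (c : Fin D → ℤ),
    (∀ j, |(c j : ℝ)| ≤ H) → |∑ j, (c j : ℝ) * ρ ^ (j : ℕ)| ≤ ρ ^ D - 1
  | 0, _, _ => by simp
  | D + 1, c, h => by
    rw [Fin.sum_univ_castSucc]
    have h1 := abs_poly_le H ρ hH hρ D (fun j => c j.castSucc) fun j => h _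
    have h2 : 0 < ρ ^ D := pow_pos (by linarith) _
    have h3 : |(c (Fin.last D) : ℝ) * ρ ^ D| ≤ H * ρ ^ D := by
      rw [abs_mul, abs_of_pos h2]; exact mul_le_mul_of_nonneg_right (h _) h2.le
    simp only [Fin.val_castSucc, Fin.val_last] at h1 ⊢
    refine (abs_add_le _ _).trans ?_
    rw [pow_succ]
    nlinarith

theorem one_le_abs_poly (H ρ : ℝ) (hH : 0 ≤ H) (hρ : H + 1 ≤ ρ) : ∀ (D : ℕ) (c : Fin D → ℤ),
    (∀ j, |(c j : ℝ)| ≤ H) → c ≠ 0 → 1 ≤ |∑ j, (c j : ℝ) * ρ ^ (j : ℕ)|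
  | 0, _, _, h => absurd (Subsingleton.elim _ _) h
  | D + 1, c, h, h0 => by
    rw [Fin.sum_univ_castSucc]
    by_cases hc : c (Fin.last D) = 0
    · have := one_le_abs_poly H ρ hH hρ D (fun j => c j.castSucc) (fun j => h _) fun h1 =>
        h0 (funext fun j => Fin.lastCases hc (fun j => congrFun h1 j) j)
      simpa [hc] using this
    · have h1 := abs_poly_le H ρ hH hρ D (fun j => c j.castSucc) fun j => h _
      have h2 : 0 < ρ ^ D := pow_pos (by linarith) _
      have h3 : (1 : ℝ) ≤ |(c (Fin.last D) : ℝ)| := by exact_mod_cast Int.one_le_abs hc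
      have h4 : ρ ^ D ≤ |(c (Fin.last D) : ℝ) * ρ ^ D| := by
        rw [abs_mul, abs_of_pos h2]; nlinarith
      simp only [Fin.val_castSucc, Fin.val_last] at h1 ⊢
      have h5 := abs_sub_abs_le_abs_add ((c (Fin.last D) : ℝ) * ρ ^ D)
        (∑ j : Fin D, (c j.castSucc : ℝ) * ρ ^ (j : ℕ))
      rw [add_comm] at h5
      linarith

theorem one_le_of_root (B m : ℝ) (hm : 0 < m) (hm1 : m ≤ 1) : ∀ (D : ℕ) (r : Fin D → ℝ),
    (∀ i, |r i| ≤ B) → (∀ i, r i = 0 ∨ 1 ≤ |r i|) → r ≠ 0 → ∑ i, r i * m ^ (i : ℕ) = 0 →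
    1 ≤ m * (D * B)
  | 0, _, _, _, h, _ => absurd (Subsingleton.elim _ _) h
  | D + 1, r, h1, h2, h0, h3 => by
    have hB : 0 ≤ B := (abs_nonneg _).trans (h1 0)
    have e : ∑ i, r i * m ^ (i : ℕ) = r 0 + m * ∑ i : Fin D, r i.succ * m ^ (i : ℕ) := by
      rw [Fin.sum_univ_succ, mul_sum]
      simp only [Fin.val_zero, pow_zero, mul_one, Fin.val_succ, pow_succ]
      congr 1
      exact sum_congr rfl fun i _ => by ring
    rw [e] at h3
    have key : 1 ≤ m * (D * B) := by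
      rcases h2 0 with h | h
      · rw [h, zero_add] at h3
        exact one_le_of_root B m hm hm1 D (fun i => r i.succ) (fun i => h1 _) (fun i => h2 _)
          (fun h4 => h0 (funext fun j => Fin.cases h (fun j => congrFun h4 j) j))
          ((mul_eq_zero.1 h3).resolve_left hm.ne')
      · have h4 : |∑ i : Fin D, r i.succ * m ^ (i : ℕ)| ≤ ∑ _i : Fin D, B := by
          refine (abs_sum_le_sum_abs _ _).trans (sum_le_sum fun i _ => ?_)
          rw [abs_mul, abs_of_pos (pow_pos hm _)]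
          have := pow_le_one₀ (n := i) hm.le hm1
          have := h1 i.succ
          have := abs_nonneg (r i.succ)
          nlinarith
        simp only [sum_const, card_univ, Fintype.card_fin, nsmul_eq_mul] at h4
        rw [show r 0 = -(m * ∑ i : Fin D, r i.succ * m ^ (i : ℕ)) by linarith, abs_neg, abs_mul,
          abs_of_pos hm] at h
        exact h.trans (mul_le_mul_of_nonneg_left h4 hm.le)
    refine key.trans (mul_le_mul_of_nonneg_left ?_ hm.le)
    push_cast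
    nlinarith

theorem Dg_le_Ht {S : ℕ} (hS : 0 < S) : Dg S ≤ Ht S := by
  unfold Ht
  exact (Nat.le_self_pow hS.ne' _).trans (Nat.le_mul_of_pos_right _ (by positivity))

/-- A nonnegative polynomial that is tiny somewhere on a big ball has a zero on that ball. -/
theorem gap {n S a : ℕ} (hn : n + 3 ≤ S) {F : MvPolynomial (Fin n) ℤ} (hF : Bd 4 a F)
    (ha : 4 * a + 1 ≤ 2 ^ S) (h0 : ∀ x : Fin n → ℝ, 0 ≤ aeval x F) {ρ : ℝ}
    (hρ : (Ht S : ℝ) + 1 ≤ ρ) {x : Fin n → ℝ} (hx : ∑ i, x i ^ 2 ≤ ρ)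
    (h : aeval x F * ρ ^ (Dg S + 1) < 1) : ∃ y : Fin n → ℝ, ∑ i, y i ^ 2 ≤ ρ ∧ aeval y F = 0 := by
  obtain ⟨c, hc0, hc1, hc2⟩ := sphere_rel (n + 1) S (by omega) _ a (hF.rename Fin.succ) ha
  have hH : (0 : ℝ) ≤ Ht S := by positivity
  have hρ1 : 1 ≤ ρ := by linarith
  have hx' : ∑ i, (Fin.cons (Real.sqrt (ρ - ∑ i, x i ^ 2)) x : Fin (n + 1) → ℝ) i ^ 2 = ρ := by
    rw [Fin.sum_univ_succ]
    simp only [Fin.cons_zero, Fin.cons_succ]
    rw [Real.sq_sqrt (by linarith)]; ring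
  obtain ⟨w, hw, hw'⟩ := (isCompact_sphere' ρ).exists_isMinOn ⟨_, hx'⟩
    (continuous_aeval (rename Fin.succ F)).continuousOn
  have h1 := hc2 ρ w (by linarith) hw fun v hv => hw' hv
  have h2 : aeval w (rename Fin.succ F) ≤ aeval x F := by
    have := hw' hx'
    simp only [Set.mem_ofPred_eq, aeval_rename] at this ⊢
    exact this
  rw [aeval_rename] at h1 h2
  refine ⟨w ∘ Fin.succ, ?_, ?_⟩
  · have : ∑ i, w i ^ 2 = ρ := hw
    rw [Fin.sum_univ_succ] at this
    have h3 := sq_nonneg (w 0)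
    simp only [Function.comp]
    linarith
  by_contra hne
  have hm := lt_of_le_of_ne (h0 _) (Ne.symm hne)
  generalize aeval (w ∘ Fin.succ) F = m at h1 h2 hm
  have hp : 1 ≤ ρ ^ (Dg S + 1) := one_le_pow₀ hρ1
  have hm1 : m ≤ 1 := by nlinarith
  have hcb : ∀ i j, |(c i j : ℝ)| ≤ Ht S := fun i j => by
    rw [← Int.cast_abs, ← Int.natCast_natAbs, Int.cast_natCast]
    exact_mod_cast hc1 i j
  have h3 := one_le_of_root (ρ ^ Dg S) m hm hm1 (Dg S) (fun i => ∑ j, (c i j : ℝ) * ρ ^ (j : ℕ))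
    (fun i => (abs_poly_le _ ρ hH hρ _ _ (hcb i)).trans (by linarith))
    (fun i => by
      by_cases hi : c i = 0
      · left; simp [hi]
      · exact Or.inr (one_le_abs_poly _ ρ hH hρ _ _ (hcb i) hi))
    (fun h4 => by
      obtain ⟨i, hi⟩ := Function.ne_iff.1 hc0
      have h5 := one_le_abs_poly _ ρ hH hρ _ _ (hcb i) hi
      have h6 := congrFun h4 i
      simp only [Pi.zero_apply] at h6
      rw [h6] at h5
      norm_num at h5)
    (by
      rw [← h1]
      refine sum_congr rfl fun i _ => ?_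
      rw [sum_mul]
      exact sum_congr rfl fun j _ => by ring)
  have h4 : (Dg S : ℝ) ≤ ρ := by
    have : (Dg S : ℝ) ≤ Ht S := by exact_mod_cast Dg_le_Ht (by omega)
    linarith
  have h5 : 0 < ρ ^ Dg S := by positivity
  have h6 : m * (Dg S * ρ ^ Dg S) ≤ aeval x F * ρ ^ (Dg S + 1) := by
    rw [pow_succ, mul_comm (ρ ^ _)]
    exact mul_le_mul h2 (mul_le_mul_of_nonneg_right h4 h5.le) (by positivity) (h0 _)
  linarith

/-- A nonnegative polynomial with a zero has a zero of controlled size. -/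
theorem small_zero {n S a : ℕ} (hn : n + 3 ≤ S) {F : MvPolynomial (Fin n) ℤ} (hF : Bd 4 a F)
    (ha : 4 * a + 1 ≤ 2 ^ S) (h0 : ∀ x : Fin n → ℝ, 0 ≤ aeval x F) {x : Fin n → ℝ}
    (hx : aeval x F = 0) : ∃ y : Fin n → ℝ, ∑ i, y i ^ 2 ≤ (Ht S : ℝ) + 1 ∧ aeval y F = 0 := by
  have hK : IsCompact ({y : Fin n → ℝ | ∑ i, y i ^ 2 ≤ ∑ i, x i ^ 2} ∩ {y | aeval y F = 0}) := by
    refine IsCompact.inter_right ?_ (isClosed_eq (continuous_aeval F) continuous_const)
    refine (isCompact_closedBall (0 : Fin n → ℝ) (∑ i, x i ^ 2 + 1)).of_isClosed_subset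
      (isClosed_le (by fun_prop) continuous_const) fun w hw => ?_
    rw [mem_closedBall_zero_iff, pi_norm_le_iff_of_nonneg (by positivity)]
    intro i
    have h1 : w i ^ 2 ≤ ∑ i, x i ^ 2 := (single_le_sum (f := fun i => w i ^ 2)
      (fun i _ => sq_nonneg _) (mem_univ i)).trans hw
    rw [Real.norm_eq_abs]
    nlinarith [sq_abs (w i), abs_nonneg (w i), sq_nonneg (|w i| - 1)]
  obtain ⟨z, hz, hz'⟩ := hK.exists_isMinOn ⟨x, le_refl (∑ i, x i ^ 2), hx⟩
    (f := fun y : Fin n → ℝ => ∑ i, y i ^ 2) (by fun_prop)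
  refine ⟨z, ?_, hz.2⟩
  by_contra hlt
  push Not at hlt
  have hz2 : aeval z F = 0 := hz.2
  have c1 : Continuous fun t : ℝ => t ^ 2 * ∑ i, z i ^ 2 := by fun_prop
  have c2 : Continuous fun t : ℝ => aeval (fun i => t * z i) F *
      (t ^ 2 * ∑ i, z i ^ 2) ^ (Dg S + 1) :=
    ((continuous_aeval F).comp (by fun_prop)).mul (c1.pow _)
  have e1 : ∀ᶠ t in 𝓝 (1 : ℝ), (Ht S : ℝ) + 1 < t ^ 2 * ∑ i, z i ^ 2 :=
    continuousAt_const.eventually_lt c1.continuousAt (by simpa using hlt)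
  have e2 : ∀ᶠ t in 𝓝 (1 : ℝ), aeval (fun i => t * z i) F *
      (t ^ 2 * ∑ i, z i ^ 2) ^ (Dg S + 1) < 1 :=
    c2.continuousAt.eventually_lt continuousAt_const (by simp [hz2])
  obtain ⟨t, ⟨h1, h2⟩, h3⟩ := (((e1.and e2).filter_mono nhdsWithin_le_nhds).and
    (Ioo_mem_nhdsLT (zero_lt_one' ℝ))).exists
  obtain ⟨y, hy, hy'⟩ := gap hn hF ha h0 h1.le (x := fun i => t * z i)
    (by simp only [mul_pow, mul_sum]; exact le_rfl) h2
  have h4 : t ^ 2 < 1 := by nlinarith [h3.1, h3.2]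
  have h5 : (0 : ℝ) < ∑ i, z i ^ 2 := lt_trans (by positivity) hlt
  have h6 : ∑ i, y i ^ 2 < ∑ i, z i ^ 2 := by nlinarith
  have h7 : ∑ i, z i ^ 2 ≤ ∑ i, y i ^ 2 := hz' ⟨h6.le.trans hz.1, hy'⟩
  linarith

/-- The doubly logarithmic size of the bounds. -/
def Kb (S : ℕ) : ℕ := (S + 2) * S + 1 + (2 * S + 2)

theorem Dg_le (S : ℕ) : Dg S ≤ 2 ^ Kb S := Nat.pow_le_pow_right (by norm_num) (by unfold Kb; omega)

theorem Ht_le (S : ℕ) : Ht S + 1 ≤ 2 ^ 2 ^ Kb S := by
  set k := (S + 2) * S + 1 with hk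
  have e : Ht S = 2 ^ (k * S + S * S * 2 ^ k) := by
    rw [Ht, Dg, ← hk, ← pow_mul, ← pow_add]
  rw [e]
  refine Nat.pow_lt_pow_right (by norm_num) ?_
  have h1 := (Nat.lt_two_pow_self (n := S)).le
  have h2 := (Nat.lt_two_pow_self (n := k)).le
  have h3 : 2 ^ Kb S = 4 * (2 ^ S * 2 ^ S * 2 ^ k) := by
    rw [Kb, ← hk]; ring
  have h4 : 1 ≤ 2 ^ S := Nat.one_le_two_pow
  have h5 : k * S ≤ 2 ^ S * 2 ^ S * 2 ^ k := by
    calc k * S ≤ 2 ^ k * 2 ^ S := Nat.mul_le_mul h2 h1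
      _ = 1 * 2 ^ S * 2 ^ k := by ring
      _ ≤ _ := Nat.mul_le_mul_right _ (Nat.mul_le_mul_right _ h4)
  have h6 : S * S * 2 ^ k ≤ 2 ^ S * 2 ^ S * 2 ^ k := Nat.mul_le_mul_right _ (Nat.mul_le_mul h1 h1)
  have h7 : 0 < 2 ^ S * 2 ^ S * 2 ^ k := by positivity
  omega

end Pool.Agent.Lib.ETR
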