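import Pool.Agent.Lib.ETR.AS
import Pool.Agent.Lib.NP.Sim

namespace Pool.Agent.Lib.ETR

open Pool.Agent.Lib.NP N68a2faeb N793a5b8e

theorem ERHardPT.hard {L : DecisionProblem} (h : ERHardPT (fun x => L x = true)) :
    ∀ L' ∈ ExistsR, ManyOneReducible L' L := fun _ h' => manyOne_trans h' h.manyOne

end Pool.Agent.Lib.ETR
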