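import Pool.Agent.Lib.ETR.Gap
import Pool.Agent.Lib.ETR.AS

/-! Systems of equations `v j = v k * v i + v l` reduce to systems of strict inequalities
`v j < v k * v i + v l` and `v j > v k * v i + v l`. -/

namespace Pool.Agent.Lib.ETR

open MvPolynomial Finset Pool.Agent.Lib.NP

abbrev Eqs := List (ℕ × ℕ × ℕ × ℕ)

def Eqs.Sat (E : Eqs) : Prop :=
  ∃ v : ℕ → ℝ, v 0 = 0 ∧ v 1 = 1 ∧ ∀ e ∈ E, v e.1 = v e.2.1 * v e.2.2.1 + v e.2.2.2

abbrev BV := ℕ × ℕ

abbrev Bil := List (Bool × BV × BV × BV × BV)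

def Bil.Holds (v : BV → ℝ) (c : Bool × BV × BV × BV × BV) : Prop :=
  bif c.1 then v c.2.2.1 * v c.2.2.2.1 + v c.2.2.2.2 < v c.2.1
  else v c.2.1 < v c.2.2.1 * v c.2.2.2.1 + v c.2.2.2.2

def Bil.Sat (B : Bil) : Prop :=
  ∃ v : BV → ℝ, v (0, 0) = 0 ∧ v (0, 1) = 1 ∧ ∀ c ∈ B, Bil.Holds v c

def Eqs.nv (E : Eqs) : ℕ := (E.map fun e => e.1 + e.2.1 + e.2.2.1 + e.2.2.2).sum + 2

def Eqs.S (E : Eqs) : ℕ := E.nv + 3 + 36 * E.length

def Eqs.toBil (E : Eqs) : Bil :=
  [(true, (3, 0), (0, 1), (0, 1), (0, 1)),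
   (true, (0, 1), (4, 0), (3, Kb E.S + (Kb E.S + 4)), (0, 0)),
   (true, (4, 0), (0, 1), (0, 0), (0, 0))] ++
  ((List.range (Kb E.S + (Kb E.S + 4))).map fun k => (true, (3, k + 1), (3, k), (3, k), (0, 0))) ++
  ((List.range E.nv).flatMap fun j =>
    [(false, (1, j), (0, 1), (0, j), (4, 0)), (false, (0, j), (0, 1), (2, j), (4, 0)),
     (false, (0, j), (0, 1), (3, Kb E.S), (0, 0)), (false, (0, 0), (0, 1), (0, j), (3, Kb E.S))]) ++
  (E.flatMap fun e =>
    [(true, (1, e.1), (0, e.2.1), (0, e.2.2.1), (0, e.2.2.2)),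
     (false, (2, e.1), (0, e.2.1), (0, e.2.2.1), (0, e.2.2.2))])

theorem pt_toBil : PT Eqs.toBil := by
  unfold Eqs.toBil Kb Eqs.S Eqs.nv
  fun_prop

theorem Eqs.lt_nv {E : Eqs} {e : ℕ × ℕ × ℕ × ℕ} (h : e ∈ E) :
    e.1 < E.nv ∧ e.2.1 < E.nv ∧ e.2.2.1 < E.nv ∧ e.2.2.2 < E.nv := by
  have := List.single_le_sum (l := E.map fun e => e.1 + e.2.1 + e.2.2.1 + e.2.2.2)
    (fun _ _ => Nat.zero_le _) _ (List.mem_map.2 ⟨e, h, rfl⟩)
  unfold Eqs.nv
  omega

noncomputable def pv (n j : ℕ) : MvPolynomial (Fin n) ℤ :=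
  if j = 0 then 0 else if j = 1 then 1 else if h : j < n then X ⟨j, h⟩ else 0

theorem good_pv (n j : ℕ) : Bd 1 1 (pv n j) := by
  unfold pv
  split_ifs
  · exact Bd.zero _ _
  · exact Bd.one.le (by norm_num) le_rfl
  · exact Bd.X _
  · exact Bd.zero _ _

theorem aeval_pv {n j : ℕ} (v : ℕ → ℝ) (h0 : v 0 = 0) (h1 : v 1 = 1) (hj : j < n) :
    aeval (fun i : Fin n => v i) (pv n j) = v j := by
  unfold pv
  split_ifs with h2 h3
  · simp [h2, h0]
  · simp [h3, h1]
  · simp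

noncomputable def Eqs.poly (E : Eqs) : MvPolynomial (Fin E.nv) ℤ :=
  (E.map fun e => (pv _ e.1 - (pv _ e.2.1 * pv _ e.2.2.1 + pv _ e.2.2.2)) ^ 2).sum

theorem Eqs.good_poly (E : Eqs) : Bd 4 (E.length * 9) E.poly :=
  Bd.listSum _ fun e _ => (((good_pv _ _).le (by norm_num : 1 ≤ 2) le_rfl).sub
    (((good_pv _ _).mul (good_pv _ _)).add ((good_pv _ _).le (by norm_num) le_rfl))).pow 2

theorem Eqs.aeval_poly (E : Eqs) (x : Fin E.nv → ℝ) : aeval x E.poly =
    (E.map fun e => (aeval x (pv _ e.1) - (aeval x (pv _ e.2.1) * aeval x (pv _ e.2.2.1) +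
      aeval x (pv _ e.2.2.2))) ^ 2).sum := by
  simp [Eqs.poly, map_list_sum, Function.comp_def]

theorem Eqs.poly_nonneg (E : Eqs) (x : Fin E.nv → ℝ) : 0 ≤ aeval x E.poly := by
  rw [Eqs.aeval_poly]
  refine List.sum_nonneg fun a ha => ?_
  obtain ⟨e, -, rfl⟩ := List.mem_map.1 ha
  positivity

theorem Eqs.of_zero (E : Eqs) {x : Fin E.nv → ℝ} (h : aeval x E.poly = 0) : ∀ e ∈ E,
    aeval x (pv _ e.1) = aeval x (pv _ e.2.1) * aeval x (pv _ e.2.2.1) + aeval x (pv _ e.2.2.2) := by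
  intro e he
  rw [Eqs.aeval_poly] at h
  have := List.single_le_sum (l := E.map fun e => (aeval x (pv _ e.1) - (aeval x (pv _ e.2.1) *
    aeval x (pv _ e.2.2.1) + aeval x (pv _ e.2.2.2))) ^ 2) (fun a ha => by
      obtain ⟨e, -, rfl⟩ := List.mem_map.1 ha
      positivity) _ (List.mem_map.2 ⟨e, he, rfl⟩)
  rw [h] at this
  exact sub_eq_zero.1 (pow_eq_zero_iff two_ne_zero |>.1 (le_antisymm this (sq_nonneg _)))

theorem Eqs.ha (E : Eqs) : 4 * (E.length * 9) + 1 ≤ 2 ^ E.S := by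
  have := Nat.lt_two_pow_self (n := E.S)
  unfold Eqs.S at this ⊢
  omega

theorem le_Ht {S : ℕ} (hS : 0 < S) : S ≤ Ht S := by
  refine le_trans ?_ (Dg_le_Ht hS)
  refine (Nat.lt_two_pow_self (n := S)).le.trans (Nat.pow_le_pow_right (by norm_num) ?_)
  nlinarith

theorem Eqs.sat_iff (E : Eqs) : E.Sat ↔ E.toBil.Sat := by
  have hHt : (Ht E.S : ℝ) + 1 ≤ 2 ^ 2 ^ Kb E.S := by exact_mod_cast Ht_le E.S
  have hS : E.nv + 3 ≤ E.S := by unfold Eqs.S; omega
  constructor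
  · rintro ⟨v, h0, h1, hv⟩
    have hz : aeval (fun i : Fin E.nv => v i) E.poly = 0 := by
      rw [Eqs.aeval_poly]
      refine List.sum_eq_zero fun a ha => ?_
      obtain ⟨e, he, rfl⟩ := List.mem_map.1 ha
      obtain ⟨a1, a2, a3, a4⟩ := Eqs.lt_nv he
      rw [aeval_pv v h0 h1 a1, aeval_pv v h0 h1 a2, aeval_pv v h0 h1 a3, aeval_pv v h0 h1 a4,
        hv e he]
      simp
    obtain ⟨y, hy, hy'⟩ := small_zero hS E.good_poly E.ha E.poly_nonneg hz
    have hR : (2 : ℝ) ^ 2 ^ Kb E.S < 3 ^ 3 ^ Kb E.S :=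
      (pow_lt_pow_left₀ (by norm_num) (by norm_num) (by positivity)).trans_le
        (pow_le_pow_right₀ (by norm_num) (Nat.pow_le_pow_left (by norm_num) _))
    have hH0 : (0 : ℝ) ≤ Ht E.S := by positivity
    have hb : ∀ j, |aeval y (pv _ j)| < 3 ^ 3 ^ Kb E.S := by
      intro j
      refine lt_of_le_of_lt (le_trans ?_ hHt) hR
      unfold pv
      split_ifs with _ _ h
      · simp; positivity
      · simp
      · have h2 : y ⟨j, h⟩ ^ 2 ≤ Ht E.S + 1 := (single_le_sum (f := fun i => y i ^ 2)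
          (fun i _ => sq_nonneg _) (mem_univ _)).trans hy
        rw [aeval_X]
        nlinarith [sq_abs (y ⟨j, h⟩), abs_nonneg (y ⟨j, h⟩), sq_nonneg (|y ⟨j, h⟩| - 1)]
      · simp; positivity
    set T : ℝ := 3 ^ 3 ^ (Kb E.S + (Kb E.S + 4)) with hT
    have hT0 : 0 < T := by positivity
    set δ := 1 / (2 * T) with hδ
    have hδ0 : 0 < δ := by positivity
    have hδT : δ * T = 1 / 2 := by rw [hδ]; field_simp
    let w : BV → ℝ := fun p => if p.1 = 0 then aeval y (pv _ p.2) else if p.1 = 1 then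
      aeval y (pv _ p.2) + δ / 2 else if p.1 = 2 then aeval y (pv _ p.2) - δ / 2
      else if p.1 = 3 then 3 ^ 3 ^ p.2 else δ
    have w0 : ∀ j, w (0, j) = aeval y (pv _ j) := fun _ => rfl
    have w1 : ∀ j, w (1, j) = aeval y (pv _ j) + δ / 2 := fun _ => rfl
    have w2 : ∀ j, w (2, j) = aeval y (pv _ j) - δ / 2 := fun _ => rfl
    have w3 : ∀ j, w (3, j) = 3 ^ 3 ^ j := fun _ => rfl
    have w4 : w (4, 0) = δ := rfl
    have w00 : w (0, 0) = 0 := by simp [w0, pv]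
    have w01 : w (0, 1) = 1 := by simp [w0, pv]
    refine ⟨w, w00, w01, fun c hc => ?_⟩
    simp only [Eqs.toBil, List.mem_append, List.mem_cons, List.mem_map, List.mem_flatMap,
      List.mem_range, List.not_mem_nil, or_false] at hc
    rcases hc with (((rfl | rfl | rfl) | ⟨k, -, rfl⟩) | ⟨j, -, rfl | rfl | rfl | rfl⟩) |
      ⟨e, he, rfl | rfl⟩ <;> simp only [Bil.Holds, cond_true, cond_false, w00, w01, w3, w4]
    · norm_num
    · rw [← hT]; linarith
    · linarith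
    · rw [pow_succ, pow_mul]
      have : (1 : ℝ) < 3 ^ 3 ^ k := one_lt_pow₀ (by norm_num) (by positivity)
      nlinarith [mul_pos (mul_pos (zero_lt_one.trans this) (zero_lt_one.trans this))
        (sub_pos.2 this)]
    · rw [w1, w0]; linarith
    · rw [w2, w0]; linarith
    · rw [w0]; linarith [(abs_lt.1 (hb j)).2]
    · rw [w0]; linarith [(abs_lt.1 (hb j)).1]
    · rw [w1, w0, w0, w0, E.of_zero hy' e he]; linarith
    · rw [w2, w0, w0, w0, E.of_zero hy' e he]; linarith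
  · rintro ⟨w, h0, h1, hw⟩
    simp only [Eqs.toBil, List.mem_append, List.mem_cons, List.mem_map, List.mem_flatMap,
      List.mem_range, List.not_mem_nil, or_false] at hw
    have c1 := hw _ (.inl (.inl (.inl (.inl rfl))))
    have c2 := hw _ (.inl (.inl (.inl (.inr (.inl rfl)))))
    have c3 := hw _ (.inl (.inl (.inl (.inr (.inr rfl)))))
    have c4 := fun k hk => hw _ (.inl (.inl (.inr ⟨k, hk, rfl⟩)))
    have c5 := fun j hj => hw _ (.inl (.inr ⟨j, hj, .inl rfl⟩))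
    have c6 := fun j hj => hw _ (.inl (.inr ⟨j, hj, .inr (.inl rfl)⟩))
    have c7 := fun j hj => hw _ (.inl (.inr ⟨j, hj, .inr (.inr (.inl rfl))⟩))
    have c8 := fun j hj => hw _ (.inl (.inr ⟨j, hj, .inr (.inr (.inr rfl))⟩))
    have c9 := fun e he => hw _ (.inr ⟨e, he, .inl rfl⟩)
    have c10 := fun e he => hw _ (.inr ⟨e, he, .inr rfl⟩)
    simp only [Bil.Holds, cond_true, cond_false, h0, h1, one_mul, add_zero, mul_zero]
      at c1 c2 c3 c4 c5 c6 c7 c8 c9 c10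
    set K := Kb E.S with hK
    have chain : ∀ a (r : ℝ), 0 ≤ r → r ≤ w (3, a) → ∀ k, a + k ≤ K + (K + 4) →
        r ^ 2 ^ k ≤ w (3, a + k) := by
      intro a r hr ha k
      induction k with
      | zero => intro _; simpa using ha
      | succ k ih =>
        intro hk
        have h2 := ih (by omega)
        have h3 := c4 (a + k) (by omega)
        have h4 : 0 ≤ r ^ 2 ^ k := by positivity
        rw [pow_succ, pow_mul, ← add_assoc]
        nlinarith
    have hR := chain 0 2 (by norm_num) (by linarith) K (by omega)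
    rw [zero_add] at hR
    set R := w (3, K) with hRd
    have hSH : (E.S : ℝ) ≤ Ht E.S := by exact_mod_cast le_Ht (by omega)
    have hH0 : (0 : ℝ) ≤ Ht E.S := by positivity
    have hR1 : 1 ≤ R := by linarith
    have hT := chain K R (by linarith) le_rfl (K + 4) le_rfl
    set δ := w (4, 0) with hδ
    have hnR : (E.nv : ℝ) ≤ R := by
      have : (E.nv : ℝ) ≤ E.S := by exact_mod_cast (by omega)
      linarith
    have hmR : (E.length : ℝ) ≤ R := by
      have : (E.length : ℝ) ≤ E.S := by exact_mod_cast (by unfold Eqs.S; omega)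
      linarith
    have hx : ∑ i : Fin E.nv, w (0, i) ^ 2 ≤ R ^ 3 := by
      calc ∑ i : Fin E.nv, w (0, i) ^ 2 ≤ ∑ _i : Fin E.nv, R ^ 2 := sum_le_sum fun i _ =>
            sq_le_sq' (by linarith [c8 i i.2]) (c7 i i.2).le
        _ = E.nv * R ^ 2 := by simp
        _ ≤ R * R ^ 2 := mul_le_mul_of_nonneg_right hnR (by positivity)
        _ = R ^ 3 := by ring
    have hF : aeval (fun i : Fin E.nv => w (0, i)) E.poly ≤ R * δ ^ 2 := by
      rw [Eqs.aeval_poly]
      refine (List.sum_le_card_nsmul _ (δ ^ 2) fun a ha => ?_).trans ?_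
      · obtain ⟨e, he, rfl⟩ := List.mem_map.1 ha
        obtain ⟨a1, a2, a3, a4⟩ := Eqs.lt_nv he
        rw [aeval_pv (fun j => w (0, j)) h0 h1 a1, aeval_pv (fun j => w (0, j)) h0 h1 a2,
          aeval_pv (fun j => w (0, j)) h0 h1 a3, aeval_pv (fun j => w (0, j)) h0 h1 a4]
        exact sq_le_sq' (by linarith [c5 _ a1, c9 e he]) (by linarith [c6 _ a1, c10 e he])
      · rw [List.length_map, nsmul_eq_mul]
        exact mul_le_mul_of_nonneg_right hmR (by positivity)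
    obtain ⟨y, -, hy⟩ := gap hS E.good_poly E.ha E.poly_nonneg (ρ := R ^ 3)
      (by linarith [le_self_pow₀ hR1 (three_ne_zero)]) hx (by
        have h2 : R * (R ^ 3) ^ (Dg E.S + 1) ≤ (R ^ 2 ^ (K + 4)) ^ 2 := by
          rw [← pow_mul, ← pow_mul, ← pow_succ']
          refine pow_le_pow_right₀ hR1 ?_
          have := Dg_le E.S
          have h3 : 1 ≤ 2 ^ K := Nat.one_le_two_pow
          rw [pow_add, ← hK] at *
          omega
        have h3 : δ * R ^ 2 ^ (K + 4) < 1 := (mul_le_mul_of_nonneg_left hT c3.le).trans_lt c2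
        have h4 : 0 ≤ δ * R ^ 2 ^ (K + 4) := by positivity
        calc _ ≤ R * δ ^ 2 * (R ^ 3) ^ (Dg E.S + 1) :=
              mul_le_mul_of_nonneg_right hF (by positivity)
          _ = δ ^ 2 * (R * (R ^ 3) ^ (Dg E.S + 1)) := by ring
          _ ≤ δ ^ 2 * (R ^ 2 ^ (K + 4)) ^ 2 := mul_le_mul_of_nonneg_left h2 (by positivity)
          _ = (δ * R ^ 2 ^ (K + 4)) ^ 2 := by ring
          _ < 1 := by nlinarith)
    exact ⟨fun j => aeval y (pv _ j), by simp [pv], by simp [pv], E.of_zero hy⟩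

def toEqs (cs : List (AC ℕ)) : Eqs := cs.map fun c =>
  if c.1 = 0 then (c.2.2.2 + 2, 1, c.2.1 + 2, c.2.2.1 + 2)
  else if c.1 = 1 then (c.2.2.2 + 2, c.2.1 + 2, c.2.2.1 + 2, 0) else (c.2.1 + 2, 1, 1, 0)

theorem eqs_hard : ERHardPT Eqs.Sat := by
  refine as_hard.reduce (g := toEqs) (by unfold toEqs; fun_prop) fun cs => ⟨?_, ?_⟩
  · rintro ⟨x, hx⟩
    refine ⟨fun j => if j = 0 then 0 else if j = 1 then 1 else x (j - 2), rfl, rfl, fun e he => ?_⟩
    obtain ⟨c, hc, rfl⟩ := List.mem_map.1 he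
    have := hx c hc
    unfold AC.Holds at this
    split_ifs at this ⊢ <;> simp_all
  · rintro ⟨v, h0, h1, hv⟩
    refine ⟨fun j => v (j + 2), fun c hc => ?_⟩
    have := hv _ (List.mem_map.2 ⟨c, hc, rfl⟩)
    unfold AC.Holds
    split_ifs at this ⊢ <;> simp_all

/-- Systems of strict bilinear inequalities are hard for the existential theory of the reals. -/
theorem bil_hard : ERHardPT Bil.Sat := eqs_hard.reduce pt_toBil Eqs.sat_iff

end Pool.Agent.Lib.ETR
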