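import Pool.Agent.Lib.ETR.Cluster
import Pool.Agent.Lib.ETR.Strict

/-! Realisability of prescribed signs between some lines and some points of the plane is hard
for the existential theory of the reals (von Staudt constructions and clusters). -/

namespace Pool.Agent.Lib.ETR

open Filter Topology Pool.Agent.Lib.NP

/-- A list of demands `(s, a, b)`: the point `b` lies on the side `s` of the line `a`. -/
abbrev Asg (κ : Type) := List (Bool × κ × κ)

def Asg.Sat {κ : Type} (L : Asg κ) : Prop :=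
  ∃ (l : κ → V3) (p : κ → ℝ × ℝ), ∀ c ∈ L,
    0 < sg c.1 * ((l c.2.1).1 * (p c.2.2).1 + (l c.2.1).2.1 * (p c.2.2).2 + (l c.2.1).2.2)

abbrev Ob := ℕ × BV × BV

namespace Ob

abbrev X : Ob := (0, (0, 0), (0, 0))
abbrev Y : Ob := (1, (0, 0), (0, 0))
abbrev W (i : BV) : Ob := (2, i, (0, 0))
abbrev D (i : BV) : Ob := (3, i, (0, 0))
abbrev P (i j : BV) : Ob := (4, i, j)
abbrev M (i : BV) : Ob := (5, i, (0, 0))
abbrev I : Ob := (6, (0, 0), (0, 0))
abbrev G : Ob := (7, (0, 0), (0, 0))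
abbrev A (i : BV) : Ob := (8, i, (0, 0))
abbrev B (i : BV) : Ob := (9, i, (0, 0))
abbrev N (i : BV) : Ob := (10, i, (0, 0))
abbrev L (i j : BV) : Ob := (11, i, j)

def par (o : Ob) : Ob × Ob :=
  [(X, X), (X, X), (X, X), (A o.2.1, G), (A o.2.1, B o.2.2), (I, N o.2.1), (X, Y),
    (W (0, 0), W (0, 1)), (W o.2.1, Y), (D o.2.1, X), (W (0, 0), P (0, 1) o.2.1),
    (P (0, 0) o.2.2, M o.2.1)].getD o.1 (X, X)

def lev (o : Ob) : ℕ := [0, 0, 0, 2, 4, 6, 1, 1, 1, 3, 5, 7].getD o.1 0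

noncomputable def std (v : BV → ℝ) (o : Ob) : V3 :=
  [(1, 0, 0), (0, 1, 0), (v o.2.1, v o.2.1, 1), (v o.2.1, v o.2.1, 1), (v o.2.1, v o.2.2, 1),
    (1, v o.2.1, 0), (0, 0, 1), (-1, 1, 0), (1, 0, -v o.2.1), (0, 1, -v o.2.1), (-v o.2.1, 1, 0),
    (-v o.2.1, 1, -v o.2.2)].getD o.1 0

end Ob

open Ob

def Bil.vars (B : Bil) : List BV :=
  (0, 0) :: (0, 1) :: B.flatMap fun c => [c.2.1, c.2.2.1, c.2.2.2.1, c.2.2.2.2]

def Bil.obs (F : Bil) : List Ob :=
  [I, G] ++ (F.vars.flatMap fun x => [A x, D x, B x]) ++ F.flatMap fun c =>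
    [P c.2.2.2.1 c.2.1, P (0, 1) c.2.2.1, P (0, 0) c.2.2.2.2, N c.2.2.1, M c.2.2.1,
      L c.2.2.1 c.2.2.2.2]

def Bil.cons (F : Bil) : List (Bool × Ob × Ob) :=
  [(true, I, W (0, 0)), (true, I, W (0, 1)), (true, A (0, 0), W (0, 1)), (true, G, Y),
    (false, G, X)] ++
  (F.vars.flatMap fun x => [(true, A x, X), (true, I, D x), (true, B x, Y)]) ++
  F.flatMap fun c =>
    [(true, I, P c.2.2.2.1 c.2.1), (true, I, P (0, 1) c.2.2.1), (true, I, P (0, 0) c.2.2.2.2),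
      (true, N c.2.2.1, Y), (true, A (0, 0), M c.2.2.1), (true, L c.2.2.1 c.2.2.2.2, Y),
      (c.1, L c.2.2.1 c.2.2.2.2, P c.2.2.2.1 c.2.1)]

theorem forall_obs {F : Bil} {Q : Ob → Prop} : (∀ o ∈ F.obs, Q o) ↔
    (Q I ∧ Q G) ∧ (∀ x ∈ F.vars, Q (A x) ∧ Q (D x) ∧ Q (B x)) ∧ ∀ c ∈ F,
      Q (P c.2.2.2.1 c.2.1) ∧ Q (P (0, 1) c.2.2.1) ∧ Q (P (0, 0) c.2.2.2.2) ∧ Q (N c.2.2.1) ∧
      Q (M c.2.2.1) ∧ Q (L c.2.2.1 c.2.2.2.2) := by
  simp only [Bil.obs, List.forall_mem_append, List.forall_mem_flatMap, List.forall_mem_cons,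
    List.not_mem_nil, false_imp_iff, implies_true, and_true, and_assoc]

theorem forall_cons {F : Bil} {Q : Bool × Ob × Ob → Prop} : (∀ o ∈ F.cons, Q o) ↔
    (Q (true, I, W (0, 0)) ∧ Q (true, I, W (0, 1)) ∧ Q (true, A (0, 0), W (0, 1)) ∧
      Q (true, G, Y) ∧ Q (false, G, X)) ∧
    (∀ x ∈ F.vars, Q (true, A x, X) ∧ Q (true, I, D x) ∧ Q (true, B x, Y)) ∧ ∀ c ∈ F,
      Q (true, I, P c.2.2.2.1 c.2.1) ∧ Q (true, I, P (0, 1) c.2.2.1) ∧
      Q (true, I, P (0, 0) c.2.2.2.2) ∧ Q (true, N c.2.2.1, Y) ∧ Q (true, A (0, 0), M c.2.2.1) ∧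
      Q (true, L c.2.2.1 c.2.2.2.2, Y) ∧ Q (c.1, L c.2.2.1 c.2.2.2.2, P c.2.2.2.1 c.2.1) := by
  simp only [Bil.cons, List.forall_mem_append, List.forall_mem_flatMap, List.forall_mem_cons,
    List.not_mem_nil, false_imp_iff, implies_true, and_true, and_assoc]

theorem lev_par (F : Bil) : ∀ o ∈ F.obs, lev (par o).1 < lev o ∧ lev (par o).2 < lev o := by
  refine forall_obs.2 ?_
  simp [lev, par]

theorem bip_obs (F : Bil) : ∀ o ∈ F.obs, (6 ≤ o.1 ∧ (par o).1.1 < 6 ∧ (par o).2.1 < 6) ∨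
    (o.1 < 6 ∧ 6 ≤ (par o).1.1 ∧ 6 ≤ (par o).2.1) := by
  refine forall_obs.2 ?_
  simp [par]

theorem bip_cons (F : Bil) : ∀ c ∈ F.cons, 6 ≤ c.2.1.1 ∧ c.2.2.1 < 6 := by
  refine forall_cons.2 ?_
  simp

theorem exact_std {F : Bil} {v : BV → ℝ} (h0 : v (0, 0) = 0) (h1 : v (0, 1) = 1)
    (hv : ∀ c ∈ F, Bil.Holds v c) : Exact F.obs par F.cons (std v) := by
  refine ⟨forall_obs.2 ⟨?_, fun x _ => ?_, fun c _ => ?_⟩,
    forall_cons.2 ⟨?_, fun x _ => ?_, fun c hc => ⟨?_, ?_, ?_, ?_, ?_, ?_, ?_⟩⟩⟩ <;>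
    try simp [par, std, dot, h0, h1]
  have := hv c hc
  unfold Bil.Holds at this
  cases hc1 : c.1 <;> simp [hc1] at this ⊢ <;> linarith

theorem nondeg_std (F : Bil) {v : BV → ℝ} (h0 : v (0, 0) = 0) (h1 : v (0, 1) = 1) :
    ∀ o ∈ F.obs, crs (std v (par o).1) (std v (par o).2) ≠ 0 := by
  refine forall_obs.2 ?_
  simp [par, std, crs, h0, h1, Prod.ext_iff]

theorem exists_frame (x y o e a g i : V3) (h1 : dot a y = 0) (h2 : dot a o = 0) (h3 : 0 < dot a x)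
    (h4 : 0 < dot a e) (h5 : dot g o = 0) (h6 : dot g e = 0) (h7 : 0 < dot g y) (h8 : dot g x < 0)
    (h9 : dot i x = 0) (h10 : dot i y = 0) (h11 : 0 < dot i o) (h12 : 0 < dot i e) :
    ∃ T S : V3 → V3, (∀ l p, dot (S l) (T p) = dot l p) ∧ (∃ t, 0 < t ∧ T x = (t, 0, 0)) ∧
      (∃ t, 0 < t ∧ T y = (0, t, 0)) ∧ (∃ t, 0 < t ∧ T o = (0, 0, t)) ∧ T e = (1, 1, 1) := by
  set d := dot x (crs y o) with hd
  have key : ∀ l p, d * dot l p = dot l x * dot (crs y o) p + dot l y * dot (crs o x) p +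
      dot l o * dot (crs x y) p := fun l p => by simp only [hd, dot, crs]; ring
  have hd0 : d ≠ 0 := by
    have : dot a (crs g i) * d = dot a x * (dot g y * dot i o - dot g o * dot i y) -
        dot a y * (dot g x * dot i o - dot g o * dot i x) +
        dot a o * (dot g x * dot i y - dot g y * dot i x) := by simp only [hd, dot, crs]; ring
    rw [h1, h2, h5] at this
    intro h
    rw [h] at this
    have := mul_pos h3 (mul_pos h7 h11)
    linarith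
  set e1 := dot (crs y o) e / d with he1
  set e2 := dot (crs o x) e / d with he2
  set e3 := dot (crs x y) e / d with he3
  have k2 : ∀ l, dot l e = dot l x * e1 + dot l y * e2 + dot l o * e3 := fun l => by
    rw [he1, he2, he3]; field_simp; linear_combination key l e
  have p1 : 0 < e1 := by
    have := k2 a
    rw [h1, h2] at this
    exact pos_of_mul_pos_right (by linarith) h3.le
  have p3 : 0 < e3 := by
    have := k2 i
    rw [h9, h10] at this
    exact pos_of_mul_pos_right (by linarith) h11.le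
  have p2 : 0 < e2 := by
    have := k2 g
    rw [h5, h6] at this
    exact pos_of_mul_pos_right (by nlinarith) h7.le
  refine ⟨fun p => (dot (crs y o) p / d / e1, dot (crs o x) p / d / e2, dot (crs x y) p / d / e3),
    fun l => (dot l x * e1, dot l y * e2, dot l o * e3), fun l p => ?_, ⟨1 / e1, by positivity, ?_⟩,
    ⟨1 / e2, by positivity, ?_⟩, ⟨1 / e3, by positivity, ?_⟩, ?_⟩
  · have := key l p
    rw [dot]
    field_simp
    linear_combination -this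
  · have a1 : dot (crs y o) x = d := dot_comm _ _
    have a2 : dot (crs o x) x = 0 := by simp only [dot, crs]; ring
    have a3 : dot (crs x y) x = 0 := by simp only [dot, crs]; ring
    simp [a1, a2, a3, hd0]
  · have a1 : dot (crs y o) y = 0 := by simp only [dot, crs]; ring
    have a2 : dot (crs o x) y = d := by simp only [hd, dot, crs]; ring
    have a3 : dot (crs x y) y = 0 := by simp only [dot, crs]; ring
    simp [a1, a2, a3, hd0]
  · have a1 : dot (crs y o) o = 0 := by simp only [dot, crs]; ring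
    have a2 : dot (crs o x) o = 0 := by simp only [dot, crs]; ring
    have a3 : dot (crs x y) o = d := by simp only [hd, dot, crs]; ring
    simp [a1, a2, a3, hd0]
  · simp only [← he1, ← he2, ← he3, div_self p1.ne', div_self p2.ne', div_self p3.ne']

theorem mem_vars {F : Bil} {c : Bool × BV × BV × BV × BV} (hc : c ∈ F) :
    c.2.1 ∈ F.vars ∧ c.2.2.1 ∈ F.vars ∧ c.2.2.2.1 ∈ F.vars ∧ c.2.2.2.2 ∈ F.vars := by
  refine ⟨?_, ?_, ?_, ?_⟩ <;>
    exact List.mem_cons_of_mem _ (List.mem_cons_of_mem _ (List.mem_flatMap.2 ⟨c, hc, by simp⟩))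

theorem sat_of_exact {F : Bil} {u : Ob → V3} (hu : Exact F.obs par F.cons u) : F.Sat := by
  obtain ⟨⟨⟨a1, a2⟩, a3, a4⟩, a5, a6⟩ := forall_obs.1 hu.1
  obtain ⟨⟨b1, b2, b3, b4, b5⟩, b6, b7⟩ := forall_cons.1 hu.2
  have z0 : ((0, 0) : BV) ∈ F.vars := by simp [Bil.vars]
  have z1 : ((0, 1) : BV) ∈ F.vars := by simp [Bil.vars]
  simp only [par, List.getD_cons_succ, List.getD_cons_zero, sg_true, sg_false, one_mul, neg_mul,
    Left.neg_pos_iff] at a1 a2 a3 a4 a5 a6 b1 b2 b3 b4 b5 b6 b7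
  obtain ⟨T, S, hTS, ⟨x, hx, hX⟩, ⟨y, hy, hY⟩, ⟨o, ho, hO⟩, hE⟩ :=
    exists_frame (u X) (u Y) (u (W (0, 0))) (u (W (0, 1))) (u (A (0, 0))) (u G) (u I)
      (a5 _ z0).1.2 (a5 _ z0).1.1 (b6 _ z0).1 b3 a3 a4 b4 b5 a1 a2 b1 b2
  have hTS' : ∀ p l, dot p l = dot (S l) (T p) := fun p l => by rw [hTS, dot_comm]
  have cI : (S (u I)).1 = 0 ∧ (S (u I)).2.1 = 0 ∧ 0 < (S (u I)).2.2 := by
    rw [← hTS] at a1 a2 b1
    simp only [hX, hY, hO, dot, mul_zero, add_zero, zero_add] at a1 a2 b1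
    exact ⟨(mul_eq_zero.1 a1).resolve_right hx.ne', (mul_eq_zero.1 a2).resolve_right hy.ne',
      pos_of_mul_pos_left b1 ho.le⟩
  have cG : (S (u G)).1 = -(S (u G)).2.1 ∧ 0 < (S (u G)).2.1 ∧ (S (u G)).2.2 = 0 := by
    rw [← hTS] at a3 a4 b4
    simp only [hE, hY, hO, dot, mul_zero, add_zero, zero_add, mul_one] at a3 a4 b4
    have := (mul_eq_zero.1 a3).resolve_right ho.ne'
    exact ⟨by linarith, pos_of_mul_pos_left b4 hy.le, this⟩
  have fin : ∀ p, 0 < dot (u I) p → 0 < (T p).2.2 := by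
    intro p h
    rw [← hTS, dot, cI.1, cI.2.1, zero_mul, zero_mul, zero_add, zero_add] at h
    exact pos_of_mul_pos_right h cI.2.2.le
  let v : BV → ℝ := fun i => -(S (u (A i))).2.2 / (S (u (A i))).1
  have cA : ∀ i ∈ F.vars, 0 < (S (u (A i))).1 ∧ (S (u (A i))).2.1 = 0 ∧
      (S (u (A i))).2.2 = -v i * (S (u (A i))).1 := by
    intro i hi
    have h1 := (a5 i hi).1.2
    have h2 := (b6 i hi).1
    rw [← hTS] at h1 h2
    simp only [hX, hY, dot, mul_zero, add_zero, zero_add] at h1 h2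
    have h3 := pos_of_mul_pos_left h2 hx.le
    refine ⟨h3, (mul_eq_zero.1 h1).resolve_right hy.ne', ?_⟩
    simp only [v]; field_simp
  have onA : ∀ i ∈ F.vars, ∀ p, dot p (u (A i)) = 0 → (T p).1 = v i * (T p).2.2 := by
    intro i hi p h
    obtain ⟨h1, h2, h3⟩ := cA i hi
    rw [hTS', dot, h2, h3] at h
    exact mul_left_cancel₀ h1.ne' (by linarith)
  have v0 : v (0, 0) = 0 := by
    have := onA _ z0 _ (dot_comm _ _ ▸ (a5 _ z0).1.1)
    rw [hO] at this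
    exact (mul_eq_zero.1 this.symm).resolve_right ho.ne'
  have v1 : v (0, 1) = 1 := by
    have := onA _ z1 _ (dot_comm _ _ ▸ (a5 _ z1).1.1)
    rw [hE] at this
    simpa using this.symm
  have onB : ∀ i ∈ F.vars, ∀ p, dot p (u (B i)) = 0 → (T p).2.1 = v i * (T p).2.2 := by
    intro i hi p h
    obtain ⟨-, ⟨h1, h2⟩, h3, h4⟩ := a5 i hi
    obtain ⟨-, h5, h6⟩ := b6 i hi
    have h7 := onA i hi _ h1
    have h8 := fin _ h5
    rw [hTS', dot, cG.1, cG.2.2] at h2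
    have h9 : (T (u (D i))).2.1 = v i * (T (u (D i))).2.2 :=
      mul_left_cancel₀ cG.2.1.ne' (by rw [← h7]; linarith)
    rw [← hTS] at h3 h4 h6
    simp only [hX, hY, dot, mul_zero, add_zero, zero_add] at h3 h4 h6
    have h10 := (mul_eq_zero.1 h4).resolve_right hx.ne'
    have h11 := pos_of_mul_pos_left h6 hy.le
    rw [h9, h10] at h3
    have h12 : (S (u (B i))).2.2 = -v i * (S (u (B i))).2.1 :=
      mul_right_cancel₀ h8.ne' (by linarith)
    rw [hTS', dot, h10, h12] at h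
    exact mul_left_cancel₀ h11.ne' (by linarith)
  refine ⟨v, v0, v1, fun c hc => ?_⟩
  obtain ⟨⟨c1, c2⟩, ⟨c3, c4⟩, ⟨c5, c6⟩, ⟨c7, c8⟩, ⟨c9, c10⟩, c11, c12⟩ := a6 c hc
  obtain ⟨d1, d2, d3, d4, d5, d6, d7⟩ := b7 c hc
  obtain ⟨mj, mk, mi, ml⟩ := mem_vars hc
  have e1 := onA _ mi _ c1
  have e2 := onB _ mj _ c2
  have e3 := onA _ z1 _ c3
  have e4 := onB _ mk _ c4
  have e5 := onA _ z0 _ c5
  have e6 := onB _ ml _ c6
  have f1 := fin _ d1
  have f2 := fin _ d2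
  have f3 := fin _ d3
  obtain ⟨g1, g2, g3⟩ := cA _ z0
  rw [← hTS] at c7 c8 c11 c12 d4 d5 d6 d7
  rw [hTS'] at c9 c10
  simp only [hY, hO, dot, mul_zero, add_zero, zero_add, e1, e2, e3, e4, e5, e6, v0, v1, g2, g3,
    cI.1, cI.2.1, zero_mul, one_mul, neg_zero] at c7 c8 c9 c10 c11 c12 d4 d5 d6 d7
  have n3 := (mul_eq_zero.1 c7).resolve_right ho.ne'
  have n2 := pos_of_mul_pos_left d4 hy.le
  have m3 := (mul_eq_zero.1 c9).resolve_left cI.2.2.ne'
  have m1 := pos_of_mul_pos_right d5 g1.le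
  have l2 := pos_of_mul_pos_left d6 hy.le
  rw [n3] at c8 c10
  rw [m3] at c12
  have n1 : (S (u (N c.2.2.1))).1 = -v c.2.2.1 * (S (u (N c.2.2.1))).2.1 :=
    mul_right_cancel₀ f2.ne' (by linarith)
  rw [n1] at c10
  have m2 : (T (u (M c.2.2.1))).2.1 = v c.2.2.1 * (T (u (M c.2.2.1))).1 :=
    mul_left_cancel₀ n2.ne' (by linarith)
  rw [m2] at c12
  have l1 : (S (u (L c.2.2.1 c.2.2.2.2))).1 = -v c.2.2.1 * (S (u (L c.2.2.1 c.2.2.2.2))).2.1 :=
    mul_right_cancel₀ m1.ne' (by linarith)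
  have l3 : (S (u (L c.2.2.1 c.2.2.2.2))).2.2 = -v c.2.2.2.2 * (S (u (L c.2.2.1 c.2.2.2.2))).2.1 :=
    mul_right_cancel₀ f3.ne' (by linarith)
  rw [l1, l3] at d7
  have d8 : 0 < ((S (u (L c.2.2.1 c.2.2.2.2))).2.1 * (T (u (P c.2.2.2.1 c.2.1))).2.2) *
      (sg c.1 * (v c.2.1 - (v c.2.2.1 * v c.2.2.2.1 + v c.2.2.2.2))) := by linarith
  have d9 := pos_of_mul_pos_right d8 (mul_pos l2 f1).le
  unfold Bil.Holds
  cases hc1 : c.1 <;> simp [hc1] at d9 ⊢ <;> linarith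

abbrev Kp := Ob × Bool × Bool

def Bil.toAsg (F : Bil) : Asg Kp :=
  (clus F.obs par F.cons).map fun c => if 6 ≤ c.2.1.1.1 then c else (c.1, c.2.2, c.2.1)

theorem pt_toAsg : PT Bil.toAsg := by
  unfold Bil.toAsg clus Bil.obs Bil.cons Bil.vars par
  fun_prop

theorem bip_clus (F : Bil) : ∀ c ∈ clus F.obs par F.cons,
    (6 ≤ c.2.1.1.1 ∧ c.2.2.1.1 < 6) ∨ (c.2.1.1.1 < 6 ∧ 6 ≤ c.2.2.1.1) := by
  refine forall_clus.2 ⟨fun o ho s s' => ?_, fun c hc s s' => Or.inl (bip_cons F c hc)⟩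
  have := bip_obs F o ho
  simp only
  omega

theorem exists_chart (v : BV → ℝ) (l : List Ob) (hl : ∀ o ∈ l, o.1 < 6) :
    ∃ t : ℝ, ∀ o ∈ l, 0 < dot (t, t ^ 2, 1) (std v o) := by
  refine (ev_list (l := 𝓝[>] (0 : ℝ)) l fun o ho => ?_).exists
  have h1 : ∀ a b : ℝ, ∀ᶠ t in 𝓝[>] (0 : ℝ), 0 < t * a + t ^ 2 * b + 1 := fun a b => by
    have hc : Continuous fun t : ℝ => t * a + t ^ 2 * b + 1 := by fun_prop
    exact (continuousAt_const.eventually_lt hc.continuousAt (by simp)).filter_mono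
      nhdsWithin_le_nhds
  have := hl o ho
  obtain ⟨k, i, j⟩ := o
  simp only at this
  interval_cases k <;> simp only [std, dot, List.getD_cons_succ, List.getD_cons_zero, mul_one,
    mul_zero, add_zero, zero_add]
  · exact self_mem_nhdsWithin
  · filter_upwards [self_mem_nhdsWithin] with t ht using pow_pos ht _
  · exact h1 _ _
  · exact h1 _ _
  · exact h1 _ _
  · filter_upwards [self_mem_nhdsWithin, h1 (v i) 0] with t ht h2
    nlinarith [mul_pos ht h2]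

theorem Bil.sat_iff (F : Bil) : F.Sat ↔ F.toAsg.Sat := by
  have hord : ∀ c ∈ F.toAsg, 6 ≤ c.2.1.1.1 ∧ c.2.2.1.1 < 6 := by
    intro c hc
    obtain ⟨c, hc', rfl⟩ := List.mem_map.1 hc
    have := bip_clus F c hc'
    split_ifs
    · omega
    · simp only; omega
  constructor
  · rintro ⟨v, h0, h1, hv⟩
    obtain ⟨t, ht⟩ := exists_chart v (F.toAsg.map fun c => c.2.2.1) fun o ho => by
      obtain ⟨c, hc, rfl⟩ := List.mem_map.1 ho
      exact (hord c hc).2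
    obtain ⟨U, hU, hU'⟩ := clus_of_exact lev (lev_par F) _ (exact_std h0 h1 hv)
      (nondeg_std F h0 h1) _ _ ht
    refine ⟨fun k => ((U k).1 - (U k).2.2 * t, (U k).2.1 - (U k).2.2 * t ^ 2, (U k).2.2),
      fun k => ((U k).1 / dot (t, t ^ 2, 1) (U k), (U k).2.1 / dot (t, t ^ 2, 1) (U k)),
      fun c hc => ?_⟩
    have h2 : 0 < dot (t, t ^ 2, 1) (U c.2.2) := hU' _ (List.mem_map_of_mem hc) c.2.2.2
    have h3 : 0 < sg c.1 * dot (U c.2.1) (U c.2.2) := by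
      obtain ⟨c, hc', rfl⟩ := List.mem_map.1 hc
      split_ifs
      · exact hU c hc'
      · rw [dot_comm]; exact hU c hc'
    refine (div_pos h3 h2).trans_eq ?_
    simp only
    field_simp
    simp only [dot]
    ring
  · rintro ⟨l, p, h⟩
    obtain ⟨u, hu⟩ := exact_of_clus lev (lev_par F)
      (fun k => if 6 ≤ k.1.1 then l k else ((p k).1, (p k).2, 1)) fun c hc => by
        have h1 := h _ (List.mem_map_of_mem hc)
        rcases bip_clus F c hc with ⟨h2, h3⟩ | ⟨h2, h3⟩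
        · simpa [h2, h3.not_ge, dot] using h1
        · rw [dot_comm]
          simpa [h2.not_ge, h3, dot] using h1
    exact sat_of_exact hu

/-- Realisability of prescribed point-line signs is hard for `ExistsR`. -/
theorem asg_hard : ERHardPT (Asg.Sat (κ := Kp)) := bil_hard.reduce pt_toAsg Bil.sat_iff

end Pool.Agent.Lib.ETR
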